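import Pool.Agent.CBG.Thin

/-!
# Squad CBG (MP_148648_gt): the closeness condition of `QuantitativeBerger`

The definitions `Chart`, `coef`, `Chris`, `Curv`, `Cov` are those of `Pool/Agent/CBG/Thin.lean`.
-/

set_option autoImplicit false
set_option maxSynthPendingDepth 3

open scoped Manifold ContDiff Topology

namespace Pool.Agent.CBG.Thin

variable {V : Type} [NormedAddCommGroup V] [NormedSpace ℝ V] {E : Type} [TopologicalSpace E]
  [ChartedSpace V E] [IsManifold 𝓘(ℝ, V) ∞ E]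

/-- all sectional curvatures of `g` are at least `κ` -/
def SecAtLeast (κ : ℝ) (g : Metric V E) : Prop :=
  ∀ (ψ : V → E) (x : V), Chart ψ x → ∀ v w a b c : V,
    Chris (coef g ψ) x v w a → Chris (coef g ψ) x v v b → Chris (coef g ψ) x w w c →
      κ * (coef g ψ x v v * coef g ψ x w w - coef g ψ x v w ^ 2) ≤ Curv (coef g ψ) x v w a b c

/-- `g₀ ≤ λ² f^* g` -/
def LowerBound (lam : ℝ) (g₀ g : Metric V E) (f : E → E) : Prop :=
  ∀ (p : E) (v : V), ip g₀ p v v ≤ lam ^ 2 * ip g (f p) (tmap f p v) (tmap f p v)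

/-- `|(∇_u (f^* g))(v,w)| ≤ ε |u| |v| |w|`, where `∇` is the Levi-Civita connection of `g₀` and the
norms are those of `g₀` -/
def C1Close (ε : ℝ) (g₀ g : Metric V E) (f : E → E) : Prop :=
  ∀ (ψ : V → E) (x : V), Chart ψ x → ∀ u v w a b : V,
    Chris (coef g₀ ψ) x u v a → Chris (coef g₀ ψ) x u w b →
      |Cov (coef g (f ∘ ψ)) x u v w a b| ≤
        ε * (√(coef g₀ ψ x u u) * √(coef g₀ ψ x v v) * √(coef g₀ ψ x w w))

end Pool.Agent.CBG.Thin
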