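import Mathlib

/-!
# Squad CBG (MP_148648_gt): torus actions by conformal maps and by almost isometric maps on closed
manifolds of positive sectional curvature, definitions

`Ed n` is the Euclidean model space, `Met E` the type of smooth Riemannian metrics of `E`. The
sectional curvature is computed in local parametrizations: for a smooth `ψ : Ed n → E` with injective
differential at `x` let `G = pull g ψ` be the pull back of `g`, a function with values in the bilinear
forms. `IsChr G x v w a` says that `a` is the Christoffel vector `Γ(v,w)` of `G` at `x`, and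
`curv G x v w a b c` is `⟨R(v,w)w, v⟩`, if `a = Γ(v,w)`, `b = Γ(v,v)`, `c = Γ(w,w)`.
-/

set_option autoImplicit false
set_option maxSynthPendingDepth 3

open scoped Manifold ContDiff Topology
open Set Filter MeasureTheory

namespace Pool.Agent.CBG

/-- the Euclidean space of dimension `n` -/
abbrev Ed (n : ℕ) : Type := EuclideanSpace ℝ (Fin n)

/-- continuous bilinear forms -/
abbrev Bil (V : Type*) [NormedAddCommGroup V] [NormedSpace ℝ V] : Type _ := V →L[ℝ] V →L[ℝ] ℝ

/-! ## Local Riemannian geometry -/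

section Local

variable {V : Type*} [NormedAddCommGroup V] [NormedSpace ℝ V]

/-- `(1/2) (D_v G(w,z) + D_w G(v,z) - D_z G(v,w))` at `x`, the Christoffel form of the first kind -/
noncomputable def chr (G : V → Bil V) (x v w z : V) : ℝ :=
  (fderiv ℝ G x v w z + fderiv ℝ G x w v z - fderiv ℝ G x z v w) / 2

/-- `a` is the Christoffel vector `Γ(v,w)` of the metric `G` at `x` -/
def IsChr (G : V → Bil V) (x v w a : V) : Prop := ∀ z : V, G x a z = chr G x v w z

/-- `⟨R(v,w)w, v⟩` of the metric `G` at `x`, where `a = Γ(v,w)`, `b = Γ(v,v)`, `c = Γ(w,w)` are the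
Christoffel vectors:
`-(1/2) (D²_{vv} G(w,w) + D²_{ww} G(v,v) - 2 D²_{vw} G(v,w)) + G(a,a) - G(b,c)` -/
noncomputable def curv (G : V → Bil V) (x v w a b c : V) : ℝ :=
  -(fderiv ℝ (fderiv ℝ G) x v v w w + fderiv ℝ (fderiv ℝ G) x w w v v
      - 2 * fderiv ℝ (fderiv ℝ G) x v w v w) / 2 + G x a a - G x b c

/-- all sectional curvatures of `G` at `x` are positive -/
def PosAt (G : V → Bil V) (x : V) : Prop :=
  ∀ v w a b c : V, LinearIndependent ℝ ![v, w] → IsChr G x v w a → IsChr G x v v b →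
    IsChr G x w w c → 0 < curv G x v w a b c

/-- all sectional curvatures of `G` at `x` are at least `1` -/
def OneAt (G : V → Bil V) (x : V) : Prop :=
  ∀ v w a b c : V, IsChr G x v w a → IsChr G x v v b → IsChr G x w w c →
    G x v v * G x w w - G x v w ^ 2 ≤ curv G x v w a b c

/-- the covariant derivative `(∇_u H)(v,w)` of the form `H` with respect to the metric `G` at `x`,
where `a = Γ(u,v)`, `b = Γ(u,w)` are Christoffel vectors of `G` -/
noncomputable def cov (H : V → Bil V) (x u v w a b : V) : ℝ :=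
  fderiv ℝ H x u v w - H x a w - H x v b

/-- `|∇^G H| ≤ ε` at `x` -/
def CovLe (ε : ℝ) (G H : V → Bil V) (x : V) : Prop :=
  ∀ u v w a b : V, IsChr G x u v a → IsChr G x u w b →
    |cov H x u v w a b| ≤ ε * (√(G x u u) * √(G x v v) * √(G x w w))

end Local

/-! ## Manifolds -/

section Mfd

variable {n : ℕ} (E : Type*) [TopologicalSpace E] [ChartedSpace (Ed n) E] [IsManifold (𝓡 n) ∞ E]

/-- smooth Riemannian metrics -/
abbrev Met : Type _ :=
  Bundle.ContMDiffRiemannianMetric (𝓡 n) ∞ (Ed n) (fun p : E => TangentSpace (𝓡 n) p)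

variable {E}

/-- the pull back of the metric `g` by the map `ψ`, at `x` -/
noncomputable def pull {W : Type*} [NormedAddCommGroup W] [NormedSpace ℝ W] (g : Met (n := n) E)
    (ψ : W → E) (x : W) : Bil W :=
  (show Bil (Ed n) from g.inner (ψ x)).bilinearComp
    (show W →L[ℝ] Ed n from mfderiv 𝓘(ℝ, W) (𝓡 n) ψ x)
    (show W →L[ℝ] Ed n from mfderiv 𝓘(ℝ, W) (𝓡 n) ψ x)

/-- `ψ` is smooth near `x` with injective differential at `x` (a local parametrization) -/
def Par (ψ : Ed n → E) (x : Ed n) : Prop :=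
  (∀ᶠ y in 𝓝 x, ContMDiffAt 𝓘(ℝ, Ed n) (𝓡 n) ∞ ψ y) ∧
    Function.Injective (mfderiv 𝓘(ℝ, Ed n) (𝓡 n) ψ x)

/-- the metric has positive sectional curvature -/
def SecPos (g : Met (n := n) E) : Prop := ∀ (ψ : Ed n → E) (x : Ed n), Par ψ x → PosAt (pull g ψ) x

/-- all sectional curvatures of the metric are at least `1` -/
def SecGeOne (g : Met (n := n) E) : Prop :=
  ∀ (ψ : Ed n → E) (x : Ed n), Par ψ x → OneAt (pull g ψ) x

/-- the map `f` is conformal -/
def Conf (g : Met (n := n) E) (f : E → E) : Prop :=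
  ∀ p : E, ∃ c : ℝ, 0 < c ∧ ∀ v w : TangentSpace (𝓡 n) p,
    g.inner (f p) (mfderiv (𝓡 n) (𝓡 n) f p v) (mfderiv (𝓡 n) (𝓡 n) f p w) = c * g.inner p v w

/-- `λ^-2 g ≤ f^* g ≤ λ^2 g` -/
def BiLip (lam : ℝ) (g : Met (n := n) E) (f : E → E) : Prop :=
  ∀ (p : E) (v : TangentSpace (𝓡 n) p),
    g.inner p v v ≤ lam ^ 2 * g.inner (f p) (mfderiv (𝓡 n) (𝓡 n) f p v) (mfderiv (𝓡 n) (𝓡 n) f p v) ∧
    g.inner (f p) (mfderiv (𝓡 n) (𝓡 n) f p v) (mfderiv (𝓡 n) (𝓡 n) f p v) ≤ lam ^ 2 * g.inner p v v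

/-- `|∇^g (f^* g)| ≤ ε` (in every local parametrization) -/
def CovSmall (ε : ℝ) (g : Met (n := n) E) (f : E → E) : Prop :=
  ∀ (ψ : Ed n → E) (x : Ed n), Par ψ x → CovLe ε (pull g ψ) (pull g (f ∘ ψ)) x

/-! ## Torus actions with real parameters -/

/-- a smooth action of the torus `ℝ² / ℤ²` without points which are fixed by a one parameter
subgroup -/
structure TAct (Φ : ℝ × ℝ → E → E) : Prop where
  smooth : ContMDiff (𝓘(ℝ, ℝ × ℝ).prod (𝓡 n)) (𝓡 n) ∞ (fun q : (ℝ × ℝ) × E => Φ q.1 q.2)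
  zero : ∀ p, Φ 0 p = p
  add : ∀ s t p, Φ (s + t) p = Φ s (Φ t p)
  per1 : ∀ p, Φ (1, 0) p = p
  per2 : ∀ p, Φ (0, 1) p = p
  lf : ∀ (p : E) (a : ℝ × ℝ), (∀ s : ℝ, Φ (s • a) p = p) → a = 0

/-- the fundamental vector field of `a` at `p` -/
noncomputable def vf (Φ : ℝ × ℝ → E → E) (a : ℝ × ℝ) (p : E) : Ed n :=
  mfderiv 𝓘(ℝ, ℝ × ℝ) (𝓡 n) (fun t => Φ t p) 0 a

/-- the inner product of the fundamental vector fields of `a`, `b` at `p` -/
noncomputable def hh (g : Met (n := n) E) (Φ : ℝ × ℝ → E → E) (a b : ℝ × ℝ) (p : E) : ℝ :=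
  g.inner p (vf (n := n) Φ a p) (vf (n := n) Φ b p)

/-- the uniform measure on the unit square of parameters -/
noncomputable def mu : Measure (ℝ × ℝ) :=
  (volume.restrict (Ioc (0 : ℝ) 1)).prod (volume.restrict (Ioc (0 : ℝ) 1))

/-- `F^{11}`, the entry number `1, 1` of the inverse matrix of a symmetric matrix with the entries
`h (1,0) (1,0)`, `h (1,0) (0,1)`, `h (0,1) (0,1)` -/
noncomputable def inv11 (h : ℝ × ℝ → ℝ × ℝ → ℝ) : ℝ :=
  h (0, 1) (0, 1) / (h (1, 0) (1, 0) * h (0, 1) (0, 1) - h (1, 0) (0, 1) ^ 2)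

end Mfd

end Pool.Agent.CBG
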