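import Pool.Agent.CBG.StmtsB

/-!
# Squad CBG (MP_148648_gt): the definitions used in the statements of the hand-ins

The same notions as in `Defs.lean` and `StmtsB.lean`, for manifolds modelled on an arbitrary real
normed space `V`, written so that they print briefly. For `V = ℝⁿ` they agree with the old ones (last
section).
-/

set_option autoImplicit false
set_option maxSynthPendingDepth 3

open scoped Manifold ContDiff Topology
open Set Filter

namespace Pool.Agent.CBG.Short

/-! ## Local Riemannian geometry -/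

section Local

variable {V : Type*} [NormedAddCommGroup V] [NormedSpace ℝ V]

/-- continuous bilinear forms -/
abbrev Form (V : Type*) [NormedAddCommGroup V] [NormedSpace ℝ V] : Type _ := V →L[ℝ] V →L[ℝ] ℝ

/-- the value of a bilinear form -/
noncomputable def val (B : Form V) (v w : V) : ℝ := B v w

/-- the derivative of `G` at `x` in the direction `u` -/
noncomputable def D1 (G : V → Form V) (x u : V) : Form V := fderiv ℝ G x u

/-- the second derivative of `G` at `x` in the directions `u`, `v` -/
noncomputable def D2 (G : V → Form V) (x u v : V) : Form V := fderiv ℝ (fderiv ℝ G) x u v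

/-- `(1/2) (D_v G(w,z) + D_w G(v,z) - D_z G(v,w))` at `x`, the Christoffel form of the first kind -/
noncomputable def chr (G : V → Form V) (x v w z : V) : ℝ :=
  (val (D1 G x v) w z + val (D1 G x w) v z - val (D1 G x z) v w) / 2

/-- `a` is the Christoffel vector `Γ(v,w)` of the metric `G` at `x` -/
def IsChr (G : V → Form V) (x v w a : V) : Prop := ∀ z : V, val (G x) a z = chr G x v w z

/-- `⟨R(v,w)w, v⟩` of the metric `G` at `x`, where `a = Γ(v,w)`, `b = Γ(v,v)`, `c = Γ(w,w)` are the
Christoffel vectors:
`-(1/2) (D²_{vv} G(w,w) + D²_{ww} G(v,v) - 2 D²_{vw} G(v,w)) + G(a,a) - G(b,c)` -/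
noncomputable def curv (G : V → Form V) (x v w a b c : V) : ℝ :=
  -(val (D2 G x v v) w w + val (D2 G x w w) v v - 2 * val (D2 G x v w) v w) / 2
    + val (G x) a a - val (G x) b c

/-- all sectional curvatures of `G` at `x` are positive -/
def PosAt (G : V → Form V) (x : V) : Prop :=
  ∀ v w a b c : V, LinearIndependent ℝ ![v, w] → IsChr G x v w a → IsChr G x v v b →
    IsChr G x w w c → 0 < curv G x v w a b c

/-- all sectional curvatures of `G` at `x` are at least `1` -/
def OneAt (G : V → Form V) (x : V) : Prop :=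
  ∀ v w a b c : V, IsChr G x v w a → IsChr G x v v b → IsChr G x w w c →
    val (G x) v v * val (G x) w w - val (G x) v w ^ 2 ≤ curv G x v w a b c

/-- the covariant derivative `(∇_u H)(v,w)` of the form `H` with respect to the metric `G` at `x`,
where `a = Γ(u,v)`, `b = Γ(u,w)` are Christoffel vectors of `G` -/
noncomputable def cov (H : V → Form V) (x u v w a b : V) : ℝ :=
  val (D1 H x u) v w - val (H x) a w - val (H x) v b

/-- `|∇^G H| ≤ ε` at `x` -/
def CovLe (ε : ℝ) (G H : V → Form V) (x : V) : Prop :=
  ∀ u v w a b : V, IsChr G x u v a → IsChr G x u w b →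
    |cov H x u v w a b| ≤ ε * (√(val (G x) u u) * √(val (G x) v v) * √(val (G x) w w))

end Local

/-! ## Manifolds -/

section Mfd

variable {V : Type*} [NormedAddCommGroup V] [NormedSpace ℝ V] {E : Type*} [TopologicalSpace E]
  [ChartedSpace V E]

/-- the differential at `x` of a map `f` from `W` to the manifold `E` -/
noncomputable def dif {W : Type*} [NormedAddCommGroup W] [NormedSpace ℝ W] (f : W → E) (x : W) :
    W →L[ℝ] V := mfderiv 𝓘(ℝ, W) 𝓘(ℝ, V) f x

/-- the differential of the map `f : E → E` at `p`, applied to the vector `u` -/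
noncomputable def dE (f : E → E) (p : E) (u : V) : V :=
  (show V →L[ℝ] V from mfderiv 𝓘(ℝ, V) 𝓘(ℝ, V) f p) u

/-- `ψ` is smooth at `x` -/
def SmoothAt (ψ : V → E) (x : V) : Prop := ContMDiffAt 𝓘(ℝ, V) 𝓘(ℝ, V) ∞ ψ x

/-- `ψ` is smooth near `x` with injective differential at `x` (a local parametrization) -/
def Par (ψ : V → E) (x : V) : Prop :=
  (∀ᶠ y in 𝓝 x, SmoothAt ψ y) ∧ Function.Injective (dif (V := V) ψ x)

variable [IsManifold 𝓘(ℝ, V) ∞ E]

variable (V E) in
/-- smooth Riemannian metrics -/
abbrev Met : Type _ :=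
  Bundle.ContMDiffRiemannianMetric 𝓘(ℝ, V) ∞ V (fun p : E => TangentSpace 𝓘(ℝ, V) p)

/-- the metric at the point `p`, a bilinear form -/
noncomputable def form (g : Met V E) (p : E) : Form V := g.inner p

/-- the pull back of the metric `g` by the map `ψ`, at `x` -/
noncomputable def pull (g : Met V E) (ψ : V → E) (x : V) : Form V :=
  (form g (ψ x)).bilinearComp (dif ψ x) (dif ψ x)

/-- the metric has positive sectional curvature -/
def SecPos (g : Met V E) : Prop := ∀ (ψ : V → E) (x : V), Par ψ x → PosAt (pull g ψ) x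

/-- all sectional curvatures of the metric are at least `1` -/
def SecGeOne (g : Met V E) : Prop := ∀ (ψ : V → E) (x : V), Par ψ x → OneAt (pull g ψ) x

/-- the map `f` is conformal -/
def Conf (g : Met V E) (f : E → E) : Prop :=
  ∀ p : E, ∃ c : ℝ, 0 < c ∧ ∀ v w : V,
    val (form g (f p)) (dE f p v) (dE f p w) = c * val (form g p) v w

/-- `λ^-2 g ≤ f^* g ≤ λ^2 g` -/
def BiLip (lam : ℝ) (g : Met V E) (f : E → E) : Prop :=
  ∀ (p : E) (v : V),
    val (form g p) v v ≤ lam ^ 2 * val (form g (f p)) (dE f p v) (dE f p v) ∧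
    val (form g (f p)) (dE f p v) (dE f p v) ≤ lam ^ 2 * val (form g p) v v

/-- `|∇^g (f^* g)| ≤ ε` (in every local parametrization) -/
def CovSmall (ε : ℝ) (g : Met V E) (f : E → E) : Prop :=
  ∀ (ψ : V → E) (x : V), Par ψ x → CovLe ε (pull g ψ) (pull g (f ∘ ψ)) x

end Mfd

/-! ## Actions of the torus -/

section Torus

variable {V : Type*} [NormedAddCommGroup V] [NormedSpace ℝ V] {E : Type*} [TopologicalSpace E]
  [ChartedSpace V E]

variable (V E) in
/-- the action of the torus `S¹ × S¹` on the manifold `E` is smooth -/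
def SmoothTorus [MulAction (Circle × Circle) E] : Prop :=
  ContMDiff (((𝓡 1).prod (𝓡 1)).prod 𝓘(ℝ, V)) 𝓘(ℝ, V) ∞
    (fun q : (Circle × Circle) × E => q.1 • q.2)

/-- the isotropy groups of the action are finite -/
def FiniteIsotropy (E : Type*) [MulAction (Circle × Circle) E] : Prop :=
  ∀ p : E, {θ : Circle × Circle | θ • p = p}.Finite

/-- the action of the element `θ` of the torus, a map `E → E` -/
def act [MulAction (Circle × Circle) E] (θ : Circle × Circle) (p : E) : E := θ • p

/-- the element `(exp 2πit₁, exp 2πit₂)` of the torus -/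
noncomputable def ex (t : ℝ × ℝ) : Circle × Circle :=
  (Circle.exp (2 * Real.pi * t.1), Circle.exp (2 * Real.pi * t.2))

variable [MulAction (Circle × Circle) E]

variable (V) in
/-- the fundamental vector `V_a(p)`, the derivative of `t ↦ ex t • p` at `0` in the direction `a` -/
noncomputable def fund (a : ℝ × ℝ) (p : E) : V := dif (V := V) (fun t : ℝ × ℝ => ex t • p) 0 a

variable [IsManifold 𝓘(ℝ, V) ∞ E]

/-- `|V_a(p)|²` -/
noncomputable def len (g : Met V E) (a : ℝ × ℝ) (p : E) : ℝ :=
  val (form g p) (fund V a p) (fund V a p)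

/-- the tangent vector `u` at `p` is orthogonal to the fundamental vectors `V_b(p)`, `b` in `L` -/
def Hor (g : Met V E) (L : Submodule ℝ (ℝ × ℝ)) (p : E) (u : V) : Prop :=
  ∀ b ∈ L, val (form g p) (fund V b p) u = 0

/-- the elements `ex t`, `t` in `L`, preserve the orthogonal complement of the fundamental vectors
`V_b`, `b` in `L` -/
def PreservesHor (g : Met V E) (L : Submodule ℝ (ℝ × ℝ)) : Prop :=
  ∀ t ∈ L, ∀ (p : E) (u : V), Hor g L p u → Hor g L (act (ex t) p) (dE (act (ex t)) p u)

/-- the differentials of the elements `ex t`, `t` in `L`, at the point `p` do not shorten the vectors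
which are orthogonal to the fundamental vectors `V_b(p)`, `b` in `L` -/
def ExpandsHor (g : Met V E) (L : Submodule ℝ (ℝ × ℝ)) (p : E) : Prop :=
  ∀ t ∈ L, ∀ u : V, Hor g L p u → val (form g p) u u ≤
    val (form g (act (ex t) p)) (dE (act (ex t)) p u) (dE (act (ex t)) p u)

end Torus

end Pool.Agent.CBG.Short
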