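import Pool.Agent.CBG.Defs

/-!
# Squad CBG (MP_148648_gt), statements of the rows

THEOREMS. Let the torus act smoothly with finite isotropy groups (for instance freely) on the closed
Riemannian manifold `(E, g)`. (1) CONFORMAL BERGER: if every element acts by a conformal map then `g` does
not have positive sectional curvature. (2) STABILITY: if `λ^-2 g ≤ θ^* g ≤ λ^2 g` and
`|∇^g (θ^* g)| ≤ ε` for all `θ` in the torus, and `27 ε² λ^6 < 4`, then `g` does not satisfy `sec ≥ 1`.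

Every row is a `def XxxStmt : Prop` with a complete proof in its docstring. Every file of a row needs
`set_option maxSynthPendingDepth 3` after the import. Notation in the proofs: `D_u G` = `fderiv ℝ G x u`,
`D²_{uv} G` = `fderiv ℝ (fderiv ℝ G) x u v`, `|v|² = G x v v`.
-/

set_option autoImplicit false
set_option maxSynthPendingDepth 3

open scoped Manifold ContDiff Topology
open Set Filter MeasureTheory

namespace Pool.Agent.CBG

/-! ## Linear algebra -/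

/-- CHX (easy). Existence and uniqueness of the vector representing a linear functional and of
Christoffel vectors. `B : Ed n → Ed n → ℝ` positive definite: the linear map `a ↦ B a` into the dual
space is injective, hence bijective (equal finite dimensions). `chr G x v w` is linear in its last
argument. -/
def ChxStmt : Prop :=
  (∀ (n : ℕ) (B : Bil (Ed n)), (∀ v : Ed n, v ≠ 0 → 0 < B v v) →
    (∀ φ : Ed n →ₗ[ℝ] ℝ, ∃ a, ∀ z, B a z = φ z) ∧ (∀ a a' : Ed n, (∀ z, B a z = B a' z) → a = a')) ∧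
  (∀ (n : ℕ) (G : Ed n → Bil (Ed n)) (x : Ed n), (∀ v : Ed n, v ≠ 0 → 0 < G x v v) → ∀ v w : Ed n,
    (∃ a, IsChr G x v w a) ∧ ∀ a a', IsChr G x v w a → IsChr G x v w a' → a = a')

/-- KER (easy-medium). `B` an inner product, `X : ℝ² → ℝⁿ` injective, `α` any bilinear form, `Z ≠ 0`:
there are `V`, linearly independent of `Z`, and `c` with `B (X c) z = α V z` for all `z`. PROOF: let
`a(V)` be the vector with `B (a(V)) z = α V z` (a linear map of `V`), let `U = X(ℝ²)`, of dimension `2`.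
The linear map `V ↦ [a(V)]` into the quotient `ℝⁿ / U` of dimension `n - 2` has a kernel of dimension at
least `2` (`LinearMap.finrank_range_add_finrank_ker`), so the kernel contains a `V` outside of `ℝ Z`. Then
`a(V) = X c` for some `c`. -/
def KerStmt : Prop :=
  ∀ (n : ℕ) (B : Bil (Ed n)), (∀ v : Ed n, v ≠ 0 → 0 < B v v) →
    ∀ X : ℝ × ℝ →L[ℝ] Ed n, Function.Injective X → ∀ (α : Ed n →ₗ[ℝ] Ed n →ₗ[ℝ] ℝ) (Z : Ed n), Z ≠ 0 →
      ∃ (V : Ed n) (c : ℝ × ℝ), LinearIndependent ℝ ![V, Z] ∧ ∀ z, B (X c) z = α V z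

/-- GRM (easy). (1) For a symmetric form `H` with `|x|²_H ≥ κ (s² + t²)` for `x = s v + t z`:
`H(v,v) H(z,z) - H(v,z)² ≥ κ²`, since `(H(v,v) - κ) (H(z,z) - κ) ≥ H(v,z)²` (a nonnegative quadratic form in
`s, t`), `H(v,v), H(z,z) ≥ κ ≥ 0`. (2) Cauchy-Schwarz. (3) The Gram determinant of a positive form and
linearly independent vectors is positive. -/
def GrmStmt : Prop :=
  (∀ (n : ℕ) (H : Bil (Ed n)) (v z : Ed n) (κ : ℝ), (∀ x y, H x y = H y x) → 0 ≤ κ →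
    (∀ s t : ℝ, κ * (s ^ 2 + t ^ 2) ≤ H (s • v + t • z) (s • v + t • z)) →
      κ ^ 2 ≤ H v v * H z z - H v z ^ 2) ∧
  (∀ (n : ℕ) (H : Bil (Ed n)) (v z : Ed n) (m : ℝ), (∀ x y, H x y = H y x) → (∀ x, 0 ≤ H x x) →
    H v v ≤ m → H z z ≤ m → |H v z| ≤ m) ∧
  (∀ (n : ℕ) (H : Bil (Ed n)) (v z : Ed n), (∀ x y, H x y = H y x) → (∀ x, x ≠ 0 → 0 < H x x) →
    LinearIndependent ℝ ![v, z] → 0 < H v v * H z z - H v z ^ 2)

/-- GSO (easy). Gram-Schmidt: for an inner product `B` and independent `v, z` there are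
`p, r, s` with `p s ≠ 0` such that `p v`, `r v + s z` are orthonormal:
`p = 1 / |v|`, `z' = z - (B(v,z) / B(v,v)) v ≠ 0`, `s = 1 / |z'|`, `r = - s B(v,z) / B(v,v)`. -/
def GsoStmt : Prop :=
  ∀ (n : ℕ) (B : Bil (Ed n)) (v z : Ed n), (∀ x y, B x y = B y x) → (∀ x, x ≠ 0 → 0 < B x x) →
    LinearIndependent ℝ ![v, z] → ∃ p r s : ℝ, p ≠ 0 ∧ s ≠ 0 ∧ B (p • v) (p • v) = 1 ∧
      B (r • v + s • z) (r • v + s • z) = 1 ∧ B (p • v) (r • v + s • z) = 0

/-! ## Local calculus at the point `0` -/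

/-- SOC (easy-medium). Necessary conditions for a minimum. `φ(ε) = G(εV)(Z + εW, Z + εW) - 2ετ` is of
class `C²` near `0` with a local minimum at `0`, `φ'(0) = D_V G(Z,Z) + 2 G(Z,W) - 2τ`,
`φ''(0) = D²_{VV} G(Z,Z) + 4 D_V G(Z,W) + 2 G(W,W)`. So `φ'(0) = 0` (`IsLocalMin.deriv_eq_zero`). If
`φ''(0) < 0` then `φ` has also a local maximum at `0` (`isLocalMax_of_deriv_deriv_neg` or the same for
`-φ`), so it is constant near `0` and `φ''(0) = 0`, contradiction. -/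
def SocStmt : Prop :=
  ∀ (n : ℕ) (G : Ed n → Bil (Ed n)), ContDiffAt ℝ 2 G 0 →
    (∀ᶠ y in 𝓝 (0 : Ed n), ∀ v w : Ed n, G y v w = G y w v) → ∀ (V Z W : Ed n) (τ : ℝ),
    (∀ᶠ ε in 𝓝 (0 : ℝ), G 0 Z Z ≤ G (ε • V) (Z + ε • W) (Z + ε • W) - 2 * ε * τ) →
      fderiv ℝ G 0 V Z Z + 2 * G 0 Z W = 2 * τ ∧
      0 ≤ fderiv ℝ (fderiv ℝ G) 0 V V Z Z + 4 * fderiv ℝ G 0 V Z W + 2 * G 0 W W

/-- INV (easy-medium). If `G` is invariant under the translations `X t` near `0`, then its derivatives in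
the directions `X a` vanish, also the second derivatives: for `y` near `0` the function
`s ↦ G (y + X (s a))` is constant, so `fderiv G y (X a) = 0`; differentiate this with respect to `y`:
`D²_{u, Xa} G = 0`, and the second derivative is symmetric (`ContDiffAt.isSymmSndFDerivAt`). -/
def InvStmt : Prop :=
  ∀ (n : ℕ) (G : Ed n → Bil (Ed n)) (X : ℝ × ℝ →L[ℝ] Ed n), ContDiffAt ℝ 2 G 0 →
    (∀ᶠ y in 𝓝 (0 : Ed n), ∀ t, G (y + X t) = G y) →
      (∀ a, fderiv ℝ G 0 (X a) = 0) ∧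
      ∀ a u, fderiv ℝ (fderiv ℝ G) 0 (X a) u = 0 ∧ fderiv ℝ (fderiv ℝ G) 0 u (X a) = 0

/-- SYM (easy). Symmetry of the derivatives of a symmetric form: `D_u G(v,w) = D_u G(w,v)`,
`D²_{uu'} G(v,w) = D²_{uu'} G(w,v) = D²_{u'u} G(v,w)`. (Differentiate the equation `G y v w = G y w v`, which
holds for `y` near `0`, once and twice; `ContDiffAt.isSymmSndFDerivAt`.) -/
def SymStmt : Prop :=
  ∀ (n : ℕ) (G : Ed n → Bil (Ed n)), ContDiffAt ℝ 2 G 0 →
    (∀ᶠ y in 𝓝 (0 : Ed n), ∀ v w : Ed n, G y v w = G y w v) →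
      (∀ u v w : Ed n, fderiv ℝ G 0 u v w = fderiv ℝ G 0 u w v) ∧
      (∀ u u' v w : Ed n, fderiv ℝ (fderiv ℝ G) 0 u u' v w = fderiv ℝ (fderiv ℝ G) 0 u u' w v) ∧
      ∀ u u' : Ed n, fderiv ℝ (fderiv ℝ G) 0 u u' = fderiv ℝ (fderiv ℝ G) 0 u' u

/-- BRG (medium; uses CHX, KER, GRM, SOC, INV, SYM). LOCAL BERGER. `G` is invariant under the
translations `X t`, and `F(y) = inv11` of the Gram matrix of `G y` on `X(ℝ²)` has a local maximum at `0`.
Then some plane at `0` has curvature `≤ 0`.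
PROOF. Write `h_ij(y) = G y (X e_i) (X e_j)`, `Δ = h_11 h_22 - h_12²`, positive near `0` with `h_22`
(continuity, GRM (3) at `0`). Let `ζ = (h_22, -h_12) / Δ` at `0`, `Z = X ζ ≠ 0`. Then
`G 0 Z (X a) = a.1` for all `a`, and `F(0) = ζ.1 = G 0 Z Z`. For `y` near `0` and all `a`:
`2 a.1 - G y (X a) (X a) ≤ F(y)` (complete the square: with `ζ_y = (h_22(y), -h_12(y)) / Δ(y)` the difference
`F(y) - 2 a.1 + G y (X a)(X a)` is `G y (X (a - ζ_y)) (X (a - ζ_y)) ≥ 0`; or: `h_22 (h_11 a² + 2 h_12 a b + h_22 b²)`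
`= Δ a² + (h_12 a + h_22 b)²`). So for `V : Ed n`, `a : ℝ²` and small `ε`:
`G(εV)(Z + εXa, Z + εXa) - 2 ε a.1 ≥ 2 (ζ.1 + ε a.1) - F(εV) - 2 ε a.1 ≥ 2 ζ.1 - F(0) = G 0 Z Z`. By SOC
(`W = X a`, `τ = a.1 = G 0 Z (X a)`): (1) `D_V G(Z,Z) = 0` and (2)
`0 ≤ D²_{VV} G(Z,Z) + 4 D_V G(Z, Xa) + 2 |Xa|²` for all `V`, `a`.
By INV, `D_{Xa} G = 0`, `D²_{Xa, u} G = D²_{u, Xa} G = 0`. Let `α V z = (D_V G(Z,z) - D_z G(Z,V)) / 2`, a bilinear
form, equal to `chr G 0 V Z z` (as `D_Z G = 0`, SYM). KER gives `V`, independent of `Z`, and `c` with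
`G 0 (X c) z = α V z` for all `z`, that is `IsChr G 0 V Z (X c)`. In particular (`D_{Xa} G = 0`)
`D_V G(Z, Xa) = 2 G 0 (X c) (X a)`. Put `a = -2 c` in (2): `D²_{VV} G(Z,Z) ≥ 16 |Xc|² - 8 |Xc|² = 8 |Xc|²`.
Also `chr G 0 Z Z z = D_Z G(Z,z) - (1/2) D_z G(Z,Z) = 0` by (1), so the Christoffel vector of `Z, Z` is `0`
(CHX), and that of `V, Z` is `X c`. Hence
`curv = -(1/2) D²_{VV} G(Z,Z) + |Xc|² ≤ -3 |Xc|² ≤ 0`. Take `v = V`, `z = Z`. -/
def BrgStmt : Prop :=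
  ∀ (n : ℕ) (G : Ed n → Bil (Ed n)) (X : ℝ × ℝ →L[ℝ] Ed n), ContDiffAt ℝ 2 G 0 →
    (∀ᶠ y in 𝓝 (0 : Ed n), ∀ v w : Ed n, G y v w = G y w v) → (∀ v : Ed n, v ≠ 0 → 0 < G 0 v v) →
    Function.Injective X → (∀ᶠ y in 𝓝 (0 : Ed n), ∀ t, G (y + X t) = G y) →
    (∀ᶠ y in 𝓝 (0 : Ed n),
      inv11 (fun a b => G y (X a) (X b)) ≤ inv11 (fun a b => G 0 (X a) (X b))) →
      ∃ v z : Ed n, LinearIndependent ℝ ![v, z] ∧ ∀ a b c : Ed n, IsChr G 0 v z a → IsChr G 0 v v b →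
        IsChr G 0 z z c → curv G 0 v z a b c ≤ 0

/-- CNF (medium; uses CHX, SYM). Conformal change. Let `H = w⁻² G`. With the notation of the
statement (`a`, `b`, `c` Christoffel vectors of `G`) and `P` = gradient of `w` (`G 0 P z = D_z w`):
`w³ curv H = w curv G + (D²_{vv}w |z|² + D²_{zz}w |v|² - 2 D²_{vz}w G(v,z))`
`- (D_b w |z|² + D_c w |v|² - 2 D_a w G(v,z)) - w⁻¹ |P|² (|v|² |z|² - G(v,z)²)`, and the last term is `≤ 0` by
Cauchy-Schwarz. PROOF of the formula (checked numerically): at `0`, with `f = w⁻²`, `D_u f = -2 w⁻³ D_u w`,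
`D²_{uv} f = -2 w⁻³ D²_{uv} w + 6 w⁻⁴ D_u w D_v w`, `D_u H = f D_u G + D_u f G`,
`D²_{uv} H = f D²_{uv} G + D_u f D_v G + D_v f D_u G + D²_{uv} f G`. The Christoffel vectors of `H` are
`a' = a - w⁻¹ (D_v w z + D_z w v - G(v,z) P)`, `b' = b - w⁻¹ (2 D_v w v - |v|² P)`,
`c' = c - w⁻¹ (2 D_z w z - |z|² P)`. Insert these into `curv H`; use `G(a,u) = chr G v z u`, etc. for
`u = v, z, P` and `G(P,u) = D_u w`; the result is an identity of polynomials in the numbers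
`G(v,v)`, `G(v,z)`, `G(z,z)`, `D_v w`, …, `chr`, … (`ring`, after rewriting). -/
def CnfStmt : Prop :=
  ∀ (n : ℕ) (G : Ed n → Bil (Ed n)) (w : Ed n → ℝ), ContDiffAt ℝ 2 G 0 → ContDiffAt ℝ 2 w 0 →
    0 < w 0 → (∀ᶠ y in 𝓝 (0 : Ed n), ∀ v z : Ed n, G y v z = G y z v) →
    (∀ v : Ed n, v ≠ 0 → 0 < G 0 v v) → PosAt (fun y => ((w y)⁻¹) ^ 2 • G y) 0 →
    ∀ v z a b c : Ed n, LinearIndependent ℝ ![v, z] → IsChr G 0 v z a → IsChr G 0 v v b →
      IsChr G 0 z z c →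
      0 < w 0 * curv G 0 v z a b c +
        (fderiv ℝ (fderiv ℝ w) 0 v v * G 0 z z + fderiv ℝ (fderiv ℝ w) 0 z z * G 0 v v
          - 2 * fderiv ℝ (fderiv ℝ w) 0 v z * G 0 v z)
        - (fderiv ℝ w 0 b * G 0 z z + fderiv ℝ w 0 c * G 0 v v - 2 * fderiv ℝ w 0 a * G 0 v z)

/-- BAS (easy-medium; uses SYM). Change of the basis of a plane: `a' = pr b + (ps + qr) a + qs c`,
`b' = p² b + 2pq a + q² c`, `c' = r² b + 2rs a + s² c` are Christoffel vectors (`chr` is symmetric and bilinear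
in `v, w`), and `curv` is multiplied by `(ps - qr)²` (expand everything, `ring`, with SYM). -/
def BasStmt : Prop :=
  ∀ (n : ℕ) (G : Ed n → Bil (Ed n)), ContDiffAt ℝ 2 G 0 →
    (∀ᶠ y in 𝓝 (0 : Ed n), ∀ v w : Ed n, G y v w = G y w v) → ∀ v z a b c : Ed n,
    IsChr G 0 v z a → IsChr G 0 v v b → IsChr G 0 z z c → ∀ p q r s : ℝ, ∃ a' b' c' : Ed n,
      IsChr G 0 (p • v + q • z) (r • v + s • z) a' ∧
      IsChr G 0 (p • v + q • z) (p • v + q • z) b' ∧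
      IsChr G 0 (r • v + s • z) (r • v + s • z) c' ∧
      curv G 0 (p • v + q • z) (r • v + s • z) a' b' c' = (p * s - q * r) ^ 2 * curv G 0 v z a b c

/-- The part of the curvature of `H` at `0` which is linear in `H`, for given vectors `a`, `b`, `c` -/
noncomputable def lin {n : ℕ} (H : Ed n → Bil (Ed n)) (v z a b c : Ed n) : ℝ :=
  -(fderiv ℝ (fderiv ℝ H) 0 v v z z + fderiv ℝ (fderiv ℝ H) 0 z z v v
      - 2 * fderiv ℝ (fderiv ℝ H) 0 v z v z) / 2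
    + 2 * chr H 0 v z a - H 0 a a - chr H 0 z z b - chr H 0 v v c + H 0 b c

/-- JET (easy). `curv H = lin H + |a' - a|²_H - H(b' - b, c' - c)` for the Christoffel vectors
`a'`, `b'`, `c'` of `H` and arbitrary `a`, `b`, `c`: `H(a',a') = 2 H(a',a) - H(a,a) + H(a'-a, a'-a)` and
`H(a',a) = chr H v z a`; `H(b',c') = H(b',c) + H(b,c') - H(b,c) + H(b'-b,c'-c)`,
`H(b',c) = chr H v v c`, `H(b,c') = chr H z z b`. -/
def JetStmt : Prop :=
  ∀ (n : ℕ) (H : Ed n → Bil (Ed n)), (∀ v w : Ed n, H 0 v w = H 0 w v) →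
    ∀ v z a b c a' b' c' : Ed n, IsChr H 0 v z a' → IsChr H 0 v v b' → IsChr H 0 z z c' →
      curv H 0 v z a' b' c' =
        lin H v z a b c + H 0 (a' - a) (a' - a) - H 0 (b' - b) (c' - c)

/-- SBD (easy-medium; uses CHX). Let `a`, `a'` be the Christoffel vectors of `v, z` for `G` and `H`,
`s = a' - a`. For every `u`: `H(s,u) = (1/2) ((∇_v H)(z,u) + (∇_z H)(v,u) - (∇_u H)(v,z))`, where `∇` is the
covariant derivative of `G` (`cov`; the Christoffel vectors `Γ(u,v) = Γ(v,u)`, `Γ(u,z) = Γ(z,u)`, `Γ(v,z) = Γ(z,v)` of `G` exist by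
CHX and are symmetric since `D_u G` is; the terms with `Γ(u,v)`, `Γ(u,z)` cancel because `H 0` is symmetric, and `H(s,u) = chr H v z u - H(a,u)`). So
`|H(s,u)| ≤ (3/2) ε |v| |z| |u|` with the norms of `G`. For `u = s`: with `|s|²_G ≤ λ² H(s,s)`,
`H(s,s)² ≤ (9/4) ε² |v|² |z|² λ² H(s,s)`. -/
def SbdStmt : Prop :=
  ∀ (n : ℕ) (G H : Ed n → Bil (Ed n)), (∀ v w : Ed n, G 0 v w = G 0 w v) →
    (∀ v w : Ed n, H 0 v w = H 0 w v) → (∀ u v w : Ed n, fderiv ℝ G 0 u v w = fderiv ℝ G 0 u w v) →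
    (∀ u v w : Ed n, fderiv ℝ H 0 u v w = fderiv ℝ H 0 u w v) →
    (∀ v : Ed n, v ≠ 0 → 0 < G 0 v v) → ∀ ε lam : ℝ, 0 ≤ ε →
    (∀ u : Ed n, G 0 u u ≤ lam ^ 2 * H 0 u u) → CovLe ε G H 0 →
    ∀ v z a a' : Ed n, IsChr G 0 v z a → IsChr H 0 v z a' →
      H 0 (a' - a) (a' - a) ≤ 9 / 4 * ε ^ 2 * lam ^ 2 * (G 0 v v * G 0 z z)

/-! ## Averages over the square of parameters -/

/-- MU0 (easy-medium). `mu` is a probability measure; continuous functions are integrable (bounded on the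
compact square, `mu` is the restriction of the Lebesgue measure); invariance under translations for
periodic continuous functions (Fubini `integral_prod`, `intervalIntegral.integral_of_le` and
`Function.Periodic.intervalIntegral_add_eq` in both variables); the integral of a positive continuous
function is positive (it is at least the minimum on the compact square `[0,1]²`). -/
def Mu0Stmt : Prop :=
  IsProbabilityMeasure mu ∧
  (∀ (F : Type) [NormedAddCommGroup F] [NormedSpace ℝ F] (f : ℝ × ℝ → F), Continuous f →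
    Integrable f mu) ∧
  (∀ (F : Type) [NormedAddCommGroup F] [NormedSpace ℝ F] [CompleteSpace F] (f : ℝ × ℝ → F),
    Continuous f → (∀ t, f (t + (1, 0)) = f t) → (∀ t, f (t + (0, 1)) = f t) →
    ∀ s, ∫ t, f (t + s) ∂mu = ∫ t, f t ∂mu) ∧
  (∀ f : ℝ × ℝ → ℝ, Continuous f → (∀ t, 0 < f t) → 0 < ∫ t, f t ∂mu)

/-- PAR (medium). Differentiation under the integral. `f` is smooth near every point `(t, 0)`. Let
`K = [0,1]²`, compact. For every `t` there is a neighbourhood of `(t,0)` on which `f` is of class `C³`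
(`ContDiffAt.eventually`), so (tube lemma, `IsCompact`) there is `r > 0` with: `f` is `C³` at all points of
`K × ball 0 r`, even of `U × ball 0 r`, `U ⊇ K` open. The partial derivatives
`f₁(t,y) = fderiv (f(t,·)) y = fderiv f (t,y) ∘ inr` and `f₂(t,y) = fderiv (f₁(t,·)) y` are continuous on
`U × ball 0 r` and bounded on `K × closedBall 0 (r/2)`. Twice
`hasFDerivAt_integral_of_dominated_of_fderiv_le` (at every point of `ball 0 (r/2)`, `mu` is concentrated on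
`K`), and the continuity of `y ↦ ∫ f₂(t,y)` (`continuousAt_of_dominated`) give `C²` (`contDiffAt_succ_iff…`,
`contDiffOn_succ_iff_fderiv_of_isOpen`). -/
def ParStmt : Prop :=
  ∀ (n : ℕ) (F : Type) [NormedAddCommGroup F] [NormedSpace ℝ F] [CompleteSpace F]
    (f : (ℝ × ℝ) × Ed n → F), (∀ t : ℝ × ℝ, ContDiffAt ℝ ∞ f (t, 0)) →
    Continuous (fun t : ℝ × ℝ => f (t, 0)) ∧
    Continuous (fun t : ℝ × ℝ => fderiv ℝ (fun y => f (t, y)) 0) ∧
    Continuous (fun t : ℝ × ℝ => fderiv ℝ (fderiv ℝ (fun y => f (t, y))) 0) ∧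
    ContDiffAt ℝ 2 (fun y => ∫ t, f (t, y) ∂mu) 0 ∧
    fderiv ℝ (fun y => ∫ t, f (t, y) ∂mu) 0 = ∫ t, fderiv ℝ (fun y => f (t, y)) 0 ∂mu ∧
    fderiv ℝ (fderiv ℝ (fun y => ∫ t, f (t, y) ∂mu)) 0 =
      ∫ t, fderiv ℝ (fderiv ℝ (fun y => f (t, y))) 0 ∂mu

/-! ## The two local theorems -/

/-- The data of a metric near a point and of the torus action, in the coordinates in which the torus
acts by translations by `X t`: `H t y` is the pull back of the metric by the element `t` of the torus -/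
structure Dat (n : ℕ) (H : ℝ × ℝ → Ed n → Bil (Ed n)) (X : ℝ × ℝ →L[ℝ] Ed n) : Prop where
  inj : Function.Injective X
  smooth : ∀ t : ℝ × ℝ, ContDiffAt ℝ ∞ (fun q : (ℝ × ℝ) × Ed n => H q.1 q.2) (t, 0)
  symm : ∀ t y, ∀ v w : Ed n, H t y v w = H t y w v
  pos : ∀ t, ∀ v : Ed n, v ≠ 0 → 0 < H t 0 v v
  per1 : ∀ t y, H (t + (1, 0)) y = H t y
  per2 : ∀ t y, H (t + (0, 1)) y = H t y
  shift : ∀ᶠ y in 𝓝 (0 : Ed n), ∀ t s, H t (y + X s) = H (t + s) y

/-- UNI (easy-medium; uses MU0). Uniformity in `t`: for `y` near `0` all forms `H t y`, `t : ℝ × ℝ`, are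
positive definite, and `t ↦ H t y` is continuous. (By periodicity it is enough to consider `t ∈ [0,1]²`,
compact; the smoothness of `H` near `(t,0)` and the positivity on the unit sphere, which is compact, give
neighbourhoods; tube lemma.) -/
def UniStmt : Prop :=
  ∀ (n : ℕ) (H : ℝ × ℝ → Ed n → Bil (Ed n)) (X : ℝ × ℝ →L[ℝ] Ed n), Dat n H X →
    ∀ᶠ y in 𝓝 (0 : Ed n), (∀ t, ∀ v : Ed n, v ≠ 0 → 0 < H t y v v) ∧ Continuous (fun t => H t y)

/-- `∫ |X e₁|⁻¹` at `y` -/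
noncomputable def uav {n : ℕ} (H : ℝ × ℝ → Ed n → Bil (Ed n)) (X : ℝ × ℝ →L[ℝ] Ed n) (y : Ed n) : ℝ :=
  ∫ t, (√(H t y (X (1, 0)) (X (1, 0))))⁻¹ ∂mu

/-- CAV (medium; uses MU0, PAR, UNI). The averaged metric `G = A⁻² G₀`, `G₀ = H₀ / H₀(X e₁, X e₁)`,
`A = uav H X`, in the conformal case, and the functions `w t y = |X e₁|⁻¹_{H t y} / A y`.
PROOF. `u(t,y) = (H t y (X e₁)(X e₁))^(-1/2)` is smooth near `(t,0)` (positivity at `(t,0)`), so PAR applies to
`u` and `A` is `C²` at `0`, `A > 0` near `0` (MU0, UNI). Near `0`: `H t y = c H 0 y` with `c > 0` gives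
`G₀ y = (H t y (X e₁)(X e₁))⁻¹ H t y` for every `t`, so `H t y = u⁻² G₀ y = (w t y)⁻² G y`. Invariance:
`G₀ (y + X s) = (…)⁻¹ H s y = G₀ y`, and `A (y + X s) = ∫ u(t + s, y) = A y` by periodicity and MU0. Finally
`∫ w t y dmu = 1` near `0`; the function `(t,y) ↦ u(t,y) / A y` need not be smooth in PAR, so differentiate
`w = u A⁻¹` with the product rule: the derivatives of `w t` at `0` of order `0, 1, 2` are sums of products of
derivatives of `u(t,·)` (continuous in `t`, with integrals the derivatives of `A`, by PAR) and of `A⁻¹`,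
so they are continuous in `t` and their integrals are the derivatives of `A A⁻¹ = 1`. -/
def CavStmt : Prop :=
  ∀ (n : ℕ) (H : ℝ × ℝ → Ed n → Bil (Ed n)) (X : ℝ × ℝ →L[ℝ] Ed n), Dat n H X →
    (∀ᶠ y in 𝓝 (0 : Ed n), ∀ t, ∃ c : ℝ, 0 < c ∧ H t y = c • H 0 y) →
    ∃ (G : Ed n → Bil (Ed n)) (w : ℝ × ℝ → Ed n → ℝ),
      ContDiffAt ℝ 2 G 0 ∧ (∀ y, ∀ v z : Ed n, G y v z = G y z v) ∧
      (∀ v : Ed n, v ≠ 0 → 0 < G 0 v v) ∧ (∀ᶠ y in 𝓝 (0 : Ed n), ∀ t, G (y + X t) = G y) ∧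
      (∀ y, G y = ((uav H X y) ^ 2 * H 0 y (X (1, 0)) (X (1, 0)))⁻¹ • H 0 y) ∧
      (∀ t, ContDiffAt ℝ 2 (w t) 0 ∧ 0 < w t 0) ∧
      (∀ t, ∀ᶠ y in 𝓝 (0 : Ed n), H t y = ((w t y)⁻¹) ^ 2 • G y) ∧
      Continuous (fun t => w t 0) ∧ ∫ t, w t 0 ∂mu = 1 ∧
      (∀ u, Continuous (fun t => fderiv ℝ (w t) 0 u) ∧ ∫ t, fderiv ℝ (w t) 0 u ∂mu = 0) ∧
      (∀ u u', Continuous (fun t => fderiv ℝ (fderiv ℝ (w t)) 0 u u') ∧
        ∫ t, fderiv ℝ (fderiv ℝ (w t)) 0 u u' ∂mu = 0)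

/-- CLO (medium; uses CHX, GRM, BRG, CNF, MU0, UNI, CAV). LOCAL CONFORMAL THEOREM. Take `G`, `w` of
CAV. Near `0`, `inv11` of `G y` on `X(ℝ²)` is `(uav H X y)² H 0 y (X e₁)(X e₁) inv11 (H 0 y)`, because `inv11`
of `κ⁻¹ H` is `κ inv11 H` (`κ > 0` near `0`). So BRG gives `v`, `z` and, with the Christoffel vectors `a, b, c`
of `G` (CHX), `curv G ≤ 0`. For every `t`, `H t` and `(w t)⁻² G` are equal near `0`, so CNF (PosAt only
depends on the germ at `0`) gives `0 < w_t(0) curv G + (…)`, a continuous function of `t` whose integral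
is `curv G` by CAV; it is positive by MU0, contradiction. -/
def CloStmt : Prop :=
  ∀ (n : ℕ) (H : ℝ × ℝ → Ed n → Bil (Ed n)) (X : ℝ × ℝ →L[ℝ] Ed n), Dat n H X →
    (∀ᶠ y in 𝓝 (0 : Ed n), ∀ t, ∃ c : ℝ, 0 < c ∧ H t y = c • H 0 y) → (∀ t, PosAt (H t) 0) →
    ¬ ∀ᶠ y in 𝓝 (0 : Ed n),
      uav H X y ^ 2 * H 0 y (X (1, 0)) (X (1, 0)) * inv11 (fun a b => H 0 y (X a) (X b)) ≤
      uav H X 0 ^ 2 * H 0 0 (X (1, 0)) (X (1, 0)) * inv11 (fun a b => H 0 0 (X a) (X b))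

/-- QAV (easy-medium; uses MU0, PAR, UNI). The averaged metric `G y = ∫ H t y dmu`: PAR with
`F = Bil (Ed n)`; evaluation of the integrals by `ContinuousLinearMap.integral_apply`; positivity (MU0);
invariance: `G (y + X s) = ∫ H (t + s) y = G y` (MU0, periodicity). The formula for `lin`: all terms are
linear in the value, the first and the second derivative at `0`. -/
def QavStmt : Prop :=
  ∀ (n : ℕ) (H : ℝ × ℝ → Ed n → Bil (Ed n)) (X : ℝ × ℝ →L[ℝ] Ed n), Dat n H X →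
    ∀ G : Ed n → Bil (Ed n), (∀ y, G y = ∫ t, H t y ∂mu) →
      ContDiffAt ℝ 2 G 0 ∧ (∀ᶠ y in 𝓝 (0 : Ed n), ∀ v z : Ed n, G y v z = G y z v) ∧
      (∀ v : Ed n, v ≠ 0 → 0 < G 0 v v) ∧ (∀ᶠ y in 𝓝 (0 : Ed n), ∀ t, G (y + X t) = G y) ∧
      (∀ v z : Ed n, Continuous (fun t => H t 0 v z) ∧ G 0 v z = ∫ t, H t 0 v z ∂mu) ∧
      (∀ u v z : Ed n, Continuous (fun t => fderiv ℝ (H t) 0 u v z) ∧
        fderiv ℝ G 0 u v z = ∫ t, fderiv ℝ (H t) 0 u v z ∂mu) ∧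
      (∀ v z a b c : Ed n, Continuous (fun t => lin (H t) v z a b c) ∧
        lin G v z a b c = ∫ t, lin (H t) v z a b c ∂mu)

/-- QLO (medium; uses CHX, GRM, GSO, SYM, BRG, BAS, JET, SBD, MU0, QAV). LOCAL STABILITY THEOREM.
Let `G = ∫ H t` (QAV). BRG and CHX give independent `v₀`, `z₀` with `curv G ≤ 0`; by GSO (for the inner
product `H 0 0`) and BAS there are `v`, `z`, orthonormal for `H 0 0`, and Christoffel vectors
`a'`, `b'`, `c'` of `G` with `curv G v z a' b' c' ≤ 0`. Let `a`, `b`, `c` be the Christoffel vectors of `H 0` for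
`v, z`; `v, v`; `z, z`. Put `m = (9/4) ε² λ²`. For every `t`, with the Christoffel vectors `a_t`, `b_t`, `c_t` of
`H t`: JET gives `lin (H t) = curv (H t) - |a_t - a|² + H t(b_t - b, c_t - c)`, which is at least
`λ^-4 - m - m`: `OneAt` and GRM (1) (`κ = λ⁻²`, since `H 0 0 ≤ λ² H t 0` and `v`, `z` are orthonormal for
`H 0 0`), SBD, and GRM (2) for the last term. So `lin G = ∫ lin (H t) ≥ λ^-4 - 2 m`. The form `G` satisfies the
same hypotheses of SBD (`H 0 0 ≤ λ² G 0` and `CovLe ε (H 0) G 0`, by integration: `mu` is a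
probability measure, `|∫ f| ≤ ∫ |f| ≤ const`), so
`0 ≥ curv G = lin G + |a' - a|² - G(b' - b, c' - c) ≥ λ^-4 - 2 m - m`, that is `27/4 ε² λ² ≥ λ^-4`, contradiction. -/
def QloStmt : Prop :=
  ∀ (n : ℕ) (H : ℝ × ℝ → Ed n → Bil (Ed n)) (X : ℝ × ℝ →L[ℝ] Ed n), Dat n H X → ∀ ε lam : ℝ,
    0 ≤ ε → 0 < lam → 27 * ε ^ 2 * lam ^ 6 < 4 → (∀ t, OneAt (H t) 0) →
    (∀ t, ∀ v : Ed n, H 0 0 v v ≤ lam ^ 2 * H t 0 v v) → (∀ t, CovLe ε (H 0) (H t) 0) →
    ¬ ∀ᶠ y in 𝓝 (0 : Ed n),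
      inv11 (fun a b => ∫ t, H t y (X a) (X b) ∂mu) ≤ inv11 (fun a b => ∫ t, H t 0 (X a) (X b) ∂mu)

/-! ## Manifolds -/

/-- PUA (easy-medium). Algebra of pull backs. (1) symmetric; (2) positive where the differential is
injective; (3), (4) chain rule `mfderiv (f ∘ ψ) x = mfderiv f (ψ x) ∘ mfderiv ψ x` and the definitions; (5)
chain rule for `Ψ ∘ (y ↦ A y + b)`. -/
def PuaStmt : Prop :=
  ∀ (n : ℕ) (E : Type) [TopologicalSpace E] [ChartedSpace (Ed n) E] [IsManifold (𝓡 n) ∞ E]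
    (g : Met (n := n) E),
    (∀ (W : Type) [NormedAddCommGroup W] [NormedSpace ℝ W] (Ψ : W → E) (x v w : W),
      pull g Ψ x v w = pull g Ψ x w v) ∧
    (∀ (ψ : Ed n → E) (x : Ed n), Function.Injective (mfderiv 𝓘(ℝ, Ed n) (𝓡 n) ψ x) →
      ∀ v : Ed n, v ≠ 0 → 0 < pull g ψ x v v) ∧
    (∀ (f : E → E) (ψ : Ed n → E) (x : Ed n), MDifferentiableAt (𝓡 n) (𝓡 n) f (ψ x) →
      MDifferentiableAt 𝓘(ℝ, Ed n) (𝓡 n) ψ x → Conf g f →
        ∃ c : ℝ, 0 < c ∧ pull g (f ∘ ψ) x = c • pull g ψ x) ∧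
    (∀ (lam : ℝ) (f : E → E) (ψ : Ed n → E) (x : Ed n), MDifferentiableAt (𝓡 n) (𝓡 n) f (ψ x) →
      MDifferentiableAt 𝓘(ℝ, Ed n) (𝓡 n) ψ x → BiLip lam g f → ∀ v : Ed n,
        pull g ψ x v v ≤ lam ^ 2 * pull g (f ∘ ψ) x v v ∧
        pull g (f ∘ ψ) x v v ≤ lam ^ 2 * pull g ψ x v v) ∧
    (∀ (W W' : Type) [NormedAddCommGroup W] [NormedSpace ℝ W] [NormedAddCommGroup W']
      [NormedSpace ℝ W'] (Ψ : W' → E) (A : W →L[ℝ] W') (b : W') (x : W),
      MDifferentiableAt 𝓘(ℝ, W') (𝓡 n) Ψ (A x + b) → ∀ v w : W,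
        pull g (fun y => Ψ (A y + b)) x v w = pull g Ψ (A x + b) (A v) (A w))

/-- PUS (medium). The pull back of a smooth metric by a map which is smooth at `x` is smooth at `x`.
For `y` near `x` the vector `mfderiv Ψ y v` in the tangent space at `Ψ y` is a smooth section along `Ψ`
(`ContMDiffAt.mfderiv`, `inTangentCoordinates`), `g.contMDiff` is the smoothness of the section
`g.inner` of the bundle of bilinear forms; combine with `ContMDiffAt.clm_bundle_apply₂` (see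
`ContMDiffWithinAt.inner_bundle` in Mathlib/Geometry/Manifold/VectorBundle/Riemannian.lean): for fixed
`v`, `w` the function `y ↦ pull g Ψ y v w` is smooth at `x` (of class `C^m` for every finite `m`). For the
function with values in `Bil W`, `W` finite dimensional: `contDiffAt_clm_apply` (twice). -/
def PusStmt : Prop :=
  ∀ (n : ℕ) (E : Type) [TopologicalSpace E] [ChartedSpace (Ed n) E] [IsManifold (𝓡 n) ∞ E]
    (g : Met (n := n) E) (W : Type) [NormedAddCommGroup W] [NormedSpace ℝ W] [FiniteDimensional ℝ W]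
    (Ψ : W → E) (x : W), ContMDiffAt 𝓘(ℝ, W) (𝓡 n) ∞ Ψ x → ContDiffAt ℝ ∞ (pull g Ψ) x

/-- VFX (medium). Fundamental vector fields. (1), (2) smoothness of the partial maps; (3) `Φ (-t)` is
inverse to `Φ t`, chain rule; (4) differentiate `Φ t (Φ s p) = Φ s (Φ t p)` (both are `Φ (t + s) p`) with
respect to `s` at `0`; (5) `hh` is symmetric, bilinear; (6) if `vf a p = 0` then the curve
`γ(s) = Φ (s a) p` satisfies `γ (s + r) = Φ (s a) (γ r)`, so its derivative at every `s` is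
`mfderiv (Φ (s a)) p (vf a p) = 0`; a curve with derivative `0` is locally constant (in a chart:
`is_const_of_fderiv_eq_zero` on an interval), so constant (`ℝ` is connected), and `a = 0` by `TAct.lf`.
So `hh a a p > 0` for `a ≠ 0`. -/
def VfxStmt : Prop :=
  ∀ (n : ℕ) (E : Type) [TopologicalSpace E] [T2Space E] [ChartedSpace (Ed n) E]
    [IsManifold (𝓡 n) ∞ E] (Φ : ℝ × ℝ → E → E), TAct (n := n) Φ →
    (∀ t, ContMDiff (𝓡 n) (𝓡 n) ∞ (Φ t)) ∧
    (∀ p, ContMDiff 𝓘(ℝ, ℝ × ℝ) (𝓡 n) ∞ (fun t => Φ t p)) ∧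
    (∀ t p, Function.Injective (mfderiv (𝓡 n) (𝓡 n) (Φ t) p)) ∧
    (∀ t a p, (show Ed n from mfderiv (𝓡 n) (𝓡 n) (Φ t) p (vf (n := n) Φ a p)) =
      vf (n := n) Φ a (Φ t p)) ∧
    (∀ (g : Met (n := n) E) (p : E), (∀ a b, hh g Φ a b p = hh g Φ b a p) ∧
      (∀ a a' b, hh g Φ (a + a') b p = hh g Φ a b p + hh g Φ a' b p) ∧
      (∀ (r : ℝ) a b, hh g Φ (r • a) b p = r * hh g Φ a b p)) ∧
    (∀ (g : Met (n := n) E) (a : ℝ × ℝ) (p : E), a ≠ 0 → 0 < hh g Φ a a p)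

/-- PSI (medium; uses VFX). Adapted parametrization. Let `κ` be the chart at `p` (`extChartAt`), `X a` = the
vector `vf a p` in the model space (`mfderiv κ p` is the identity in Mathlib's trivialization; or
define `X a` as the derivative of `t ↦ κ (Φ t p)` at `0`), injective by VFX. Choose a linear
`ℓ : Ed n → ℝ × ℝ` with `ℓ (X a) = a` (left inverse) and put
`ψ y = Φ (ℓ y) (κ⁻¹ (κ p + (y - X (ℓ y))))`. Then `ψ 0 = p`, `ψ (y + X t) = Φ t (ψ y)` for ALL `y, t`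
(`y + X t - X (ℓ (y + X t)) = y - X (ℓ y)`, `Φ (ℓ y + t) = Φ t ∘ Φ (ℓ y)`), `ψ` is smooth near `0`, and its
differential at `0` is `v ↦ vf (ℓ v) p + (v - X (ℓ v)) = v` in these coordinates: injective. The last
statement: for `y` near `0` (where `ψ` is differentiable) differentiate `ψ (y + X t) = Φ t (ψ y)` with
respect to `t` at `0`. -/
def PsiStmt : Prop :=
  ∀ (n : ℕ) (E : Type) [TopologicalSpace E] [T2Space E] [ChartedSpace (Ed n) E]
    [IsManifold (𝓡 n) ∞ E] (Φ : ℝ × ℝ → E → E), TAct (n := n) Φ → ∀ p : E,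
    ∃ (ψ : Ed n → E) (X : ℝ × ℝ →L[ℝ] Ed n), Function.Injective X ∧ ψ 0 = p ∧ Par ψ 0 ∧
      (∀ y t, ψ (y + X t) = Φ t (ψ y)) ∧
      ∀ᶠ y in 𝓝 (0 : Ed n), ∀ a, (show Ed n from mfderiv 𝓘(ℝ, Ed n) (𝓡 n) ψ y (X a)) =
        vf (n := n) Φ a (ψ y)

/-- HCT (medium; uses PUS, PUA). Continuity of the Gram matrix of the fundamental fields. Near `p`, with the
chart `κ` at `p` let `Ψ (t, y) = Φ t (κ⁻¹ y)`, smooth near `(0, κ p)`; the derivative of `Ψ` at `(0, y)` in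
the direction `(a, 0)` is `vf a (κ⁻¹ y)`, so `hh a b (κ⁻¹ y) = pull g Ψ (0,y) (a,0) (b,0)`, continuous at
`y = κ p` (PUS). Compose with `κ`, continuous near `p`, `κ⁻¹ (κ q) = q`. -/
def HctStmt : Prop :=
  ∀ (n : ℕ) (E : Type) [TopologicalSpace E] [T2Space E] [ChartedSpace (Ed n) E]
    [IsManifold (𝓡 n) ∞ E] (Φ : ℝ × ℝ → E → E), TAct (n := n) Φ → ∀ (g : Met (n := n) E) (a b : ℝ × ℝ),
      Continuous (hh g Φ a b)

/-- DTX (medium; uses PUA, PUS, VFX). For `ψ`, `X` as in PSI the forms `H t = pull g (Φ t ∘ ψ)` are a `Dat`,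
and `H t y (X a) (X b) = hh a b (Φ t (ψ y))`, `H t` belongs to a local parametrization.
PROOF. Smoothness at `(t,0)`: `Ψ (t, y) = Φ t (ψ y)` is smooth near `(t,0)`, and
`pull g (Φ t ∘ ψ) y v w = pull g Ψ (t,y) (0,v) (0,w)` for `y` near `0` (PUA (5) with `A = inr`, `b = (t,0)`), PUS,
composition with continuous linear maps. `Par (Φ t ∘ ψ) 0` by VFX (3). Symmetry, positivity: PUA. Periods:
`Φ (t + (1,0)) p = Φ t (Φ (1,0) p) = Φ t p`. Shift: for `y` near `0`: `Φ t ∘ ψ` translated by `X s` is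
`Φ (t + s) ∘ ψ` by the equivariance of `ψ` (`Φ t (ψ (y + X s)) = Φ t (Φ s (ψ y))`), PUA (5) with
`A = id`, `b = X s` (`Φ t ∘ ψ` is differentiable at `y + X s` since `ψ` is: `ψ (y' + X s) = Φ s (ψ y')`). The
formula for `hh`: the differential of `Φ t ∘ ψ` at `y` maps `X a` to
`mfderiv (Φ t) (ψ y) (vf a (ψ y)) = vf a (Φ t (ψ y))`. -/
def DtxStmt : Prop :=
  ∀ (n : ℕ) (E : Type) [TopologicalSpace E] [T2Space E] [ChartedSpace (Ed n) E]
    [IsManifold (𝓡 n) ∞ E] (Φ : ℝ × ℝ → E → E), TAct (n := n) Φ → ∀ (g : Met (n := n) E)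
    (ψ : Ed n → E) (X : ℝ × ℝ →L[ℝ] Ed n), Function.Injective X → Par ψ 0 →
    (∀ y t, ψ (y + X t) = Φ t (ψ y)) →
    (∀ᶠ y in 𝓝 (0 : Ed n), ∀ a, (show Ed n from mfderiv 𝓘(ℝ, Ed n) (𝓡 n) ψ y (X a)) =
        vf (n := n) Φ a (ψ y)) →
      Dat n (fun t => pull g (Φ t ∘ ψ)) X ∧ (∀ t, Par (Φ t ∘ ψ) 0) ∧
      ∀ᶠ y in 𝓝 (0 : Ed n), ∀ t a b,
        pull g (Φ t ∘ ψ) y (X a) (X b) = hh g Φ a b (Φ t (ψ y))

/-- MAX (easy-medium; uses MU0, VFX, HCT). Continuous functions on the compact manifold. (1) `inv11` of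
`hh` at `p`, the function `p ↦ ∫ |vf e₁|⁻¹` over the orbit of `p`, and `inv11` of the averages of `hh` are
continuous: `hh a b (Φ t p)` is continuous in `(t,p)`; the denominator `h_11 h_22 - h_12²` is positive (an
inner product on `ℝ²`: VFX, resp. its average, MU0); `continuous_parametric_integral_of_continuous`
or `continuous_of_dominated` (compactness). So both functions `F₁`, `F₂` of the statement are continuous
on the compact nonempty space `E` and have a maximum. -/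
def MaxStmt : Prop :=
  ∀ (n : ℕ) (E : Type) [TopologicalSpace E] [T2Space E] [CompactSpace E] [Nonempty E]
    [ChartedSpace (Ed n) E] [IsManifold (𝓡 n) ∞ E] (Φ : ℝ × ℝ → E → E), TAct (n := n) Φ →
    ∀ g : Met (n := n) E,
      (∃ p : E, ∀ q : E,
        (∫ t, (√(hh g Φ (1, 0) (1, 0) (Φ t q)))⁻¹ ∂mu) ^ 2 * hh g Φ (1, 0) (1, 0) q *
            inv11 (fun a b => hh g Φ a b q) ≤
        (∫ t, (√(hh g Φ (1, 0) (1, 0) (Φ t p)))⁻¹ ∂mu) ^ 2 * hh g Φ (1, 0) (1, 0) p *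
            inv11 (fun a b => hh g Φ a b p)) ∧
      ∃ p : E, ∀ q : E,
        inv11 (fun a b => ∫ t, hh g Φ a b (Φ t q) ∂mu) ≤
        inv11 (fun a b => ∫ t, hh g Φ a b (Φ t p) ∂mu)

/-- CGL (easy-medium; uses CLO, PUA, VFX, PSI, DTX, MAX). The conformal theorem for `TAct`. At the maximum
`p` of the first function of MAX take `ψ`, `X` of PSI and `H t = pull g (Φ t ∘ ψ)`, a `Dat` by DTX. PUA (3) gives
the proportionality (`Φ 0 ∘ ψ = ψ`), `SecPos` and `Par (Φ t ∘ ψ) 0` give `PosAt (H t) 0`. By the last statement of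
DTX the function of CLO at `y` is the function of MAX at `ψ y` for `y` near `0` (`Φ 0 q = q`), at most its
value at `p = ψ 0`: contradiction to CLO. -/
def CglStmt : Prop :=
  ∀ (n : ℕ) (E : Type) [TopologicalSpace E] [T2Space E] [CompactSpace E] [Nonempty E]
    [ChartedSpace (Ed n) E] [IsManifold (𝓡 n) ∞ E] (Φ : ℝ × ℝ → E → E), TAct (n := n) Φ →
    ∀ g : Met (n := n) E, (∀ t, Conf g (Φ t)) → ¬ SecPos g

/-- QGL (easy-medium; uses QLO, PUA, VFX, PSI, DTX, MAX). The stability theorem for `TAct`. As CGL, with the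
second function of MAX, QLO, PUA (4) (for `Φ t`, at `x = 0`), `CovSmall` for `Φ t` (`Φ 0 ∘ ψ = ψ`). -/
def QglStmt : Prop :=
  ∀ (n : ℕ) (E : Type) [TopologicalSpace E] [T2Space E] [CompactSpace E] [Nonempty E]
    [ChartedSpace (Ed n) E] [IsManifold (𝓡 n) ∞ E] (Φ : ℝ × ℝ → E → E), TAct (n := n) Φ →
    ∀ (g : Met (n := n) E) (ε lam : ℝ), 0 ≤ ε → 0 < lam → 27 * ε ^ 2 * lam ^ 6 < 4 →
      (∀ t, BiLip lam g (Φ t)) → (∀ t, CovSmall ε g (Φ t)) → ¬ SecGeOne g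

/-- EXP (easy-medium). From the torus `Circle × Circle` to real parameters:
`Φ t p = (exp (2 π i t₁), exp (2 π i t₂)) • p` (`Circle.exp`). Smooth: `contMDiff_circleExp`. Additive:
`Circle.exp_add`. Periods: `Circle.exp_two_pi`. If `Φ (s a) p = p` for all real `s` and `a ≠ 0`, say `a₁ ≠ 0`,
then the elements `θ_k = Φ ((1 / k) a / a₁)`, i.e. `s = 1 / (k a₁)`, `k = 1, 2, …`, of the isotropy group have
the first component `exp (2 π i / k)`, pairwise different for `k ≥ 1` (`Circle.exp` is injective on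
`(0, 2π]` up to the period: `Circle.exp_eq_exp` or arguments), so the isotropy group is infinite. -/
def ExpStmt : Prop :=
  ∀ (n : ℕ) (E : Type) [TopologicalSpace E] [ChartedSpace (Ed n) E] [IsManifold (𝓡 n) ∞ E]
    [MulAction (Circle × Circle) E],
    ContMDiff (((𝓡 1).prod (𝓡 1)).prod (𝓡 n)) (𝓡 n) ∞
      (fun q : (Circle × Circle) × E => q.1 • q.2) →
    (∀ p : E, {θ : Circle × Circle | θ • p = p}.Finite) →
      TAct (n := n) (fun (t : ℝ × ℝ) (p : E) =>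
        (Circle.exp (2 * Real.pi * t.1), Circle.exp (2 * Real.pi * t.2)) • p)

/-- TOP (easy; uses CGL, QGL, EXP). The two theorems for smooth actions of the torus with finite isotropy
groups. -/
def TopStmt : Prop :=
  ∀ (n : ℕ) (E : Type) [TopologicalSpace E] [T2Space E] [CompactSpace E] [Nonempty E]
    [ChartedSpace (Ed n) E] [IsManifold (𝓡 n) ∞ E] [MulAction (Circle × Circle) E],
    ContMDiff (((𝓡 1).prod (𝓡 1)).prod (𝓡 n)) (𝓡 n) ∞
      (fun q : (Circle × Circle) × E => q.1 • q.2) →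
    (∀ p : E, {θ : Circle × Circle | θ • p = p}.Finite) → ∀ g : Met (n := n) E,
      ((∀ θ : Circle × Circle, Conf g (fun p => θ • p)) → ¬ SecPos g) ∧
      ∀ ε lam : ℝ, 0 ≤ ε → 0 < lam → 27 * ε ^ 2 * lam ^ 6 < 4 →
        (∀ θ : Circle × Circle, BiLip lam g (fun p => θ • p) ∧ CovSmall ε g (fun p => θ • p)) →
          ¬ SecGeOne g

end Pool.Agent.CBG
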