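import Pool.Agent.CBG.StmtsA

/-!
# Squad CBG (MP_148648_gt), part B: ORTHOGONAL BERGER

THEOREM. Let the torus act smoothly with finite isotropy groups (for instance freely) on the closed
manifold `E`, let `g` be a Riemannian metric, `V_a` (`a` in `ℝ²`) the fundamental vector fields and `HH` the
orthogonal complement of the orbits. Suppose (A) the torus preserves `HH`; (B) for every `a ≠ 0` every orbit
contains a point `p` with `|V_a(θp)| ≥ |V_a(p)|` and `|dθ u| ≥ |u|` for all `θ` and all `u` in `HH_p`; (C) `n` is odd or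
the torus acts conformally on its orbits. Then `g` does not have positive sectional curvature.
Corollaries: conformal actions; `g = ψ g₀` on `HH` and `ρ g₀` on the orbits, `g₀` invariant, `ψ`, `ρ` with a common
minimum on every orbit. No averaging is used: everything happens at one point `p`, a minimum of
`|V_a|`, `|a| = 1`.

Rules for the rows as in `StmtsA.lean` (import `Pool.Agent.CBG.StmtsB`). A subspace `L` of `ℝ²` with
`n + dim L` odd is used: `L = ℝ²` for odd `n`, a line for even `n`.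
-/

set_option autoImplicit false
set_option maxSynthPendingDepth 3

open scoped Manifold ContDiff Topology
open Set Filter MeasureTheory

namespace Pool.Agent.CBG

/-- `b₁² + b₂²` -/
def nsq (b : ℝ × ℝ) : ℝ := b.1 ^ 2 + b.2 ^ 2

/-! ## Linear algebra -/

/-- SKW (easy-medium). A skew form on a space of odd dimension has a kernel. PROOF: in a basis of `H` the
matrix `A` of `Ω` satisfies `Aᵀ = -A`, so `det A = (-1)^k det A` with `k` odd (`Matrix.det_transpose`,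
`Matrix.det_neg`), `det A = 0`, and there is `v ≠ 0` with `A v = 0` (`Matrix.exists_mulVec_eq_zero_iff`). -/
def SkwStmt : Prop :=
  ∀ (n : ℕ) (H : Submodule ℝ (Ed n)), Odd (Module.finrank ℝ H) →
    ∀ Ω : Ed n →ₗ[ℝ] Ed n →ₗ[ℝ] ℝ, (∀ x y, Ω x y = - Ω y x) →
      ∃ z ∈ H, z ≠ 0 ∧ ∀ z' ∈ H, Ω z z' = 0

/-- ORT (easy-medium). The orthogonal complement for an inner product `B`. PROOF: `H` is the submodule
of the `z` with `B v z = 0` for all `v` in `T`; `T ∩ H = 0` by positivity; `H` is the kernel of the linear map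
`z ↦ (v ↦ B v z)` into the dual of `T`, so `dim H ≥ n - dim T` (`LinearMap.finrank_range_add_finrank_ker`), and
`dim T + dim H = dim (T + H) ≤ n` (or use `LinearMap.BilinForm.isCompl_orthogonal_of_restrict_nondegenerate`).
Cramer: for a symmetric positive definite `h` on `ℝ²` and a linear `φ` there is `c` with `h b c = φ b`. -/
def OrtStmt : Prop :=
  (∀ (n : ℕ) (B : Bil (Ed n)), (∀ x y, B x y = B y x) → (∀ x, x ≠ 0 → 0 < B x x) →
    ∀ T : Submodule ℝ (Ed n), ∃ H : Submodule ℝ (Ed n), (∀ z, z ∈ H ↔ ∀ v ∈ T, B v z = 0) ∧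
      IsCompl T H ∧ Module.finrank ℝ T + Module.finrank ℝ H = n) ∧
  ∀ (h : (ℝ × ℝ) →ₗ[ℝ] (ℝ × ℝ) →ₗ[ℝ] ℝ) (φ : (ℝ × ℝ) →ₗ[ℝ] ℝ), (∀ a b, h a b = h b a) →
    (∀ a, a ≠ 0 → 0 < h a a) → ∃ c, ∀ b, h b c = φ b

/-! ## The local theorem -/

/-- WPR (medium). The distribution `{z : G y (X b) z = 0 for all b in L}` is invariant under the
translations `X t`, `t` in `L`: consequences for the derivatives at `0`.
PROOF. First part: by the hypothesis at `y = 0`, `G (X t) (X b) z = 0` for all `t` in `L`; differentiate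
`s ↦ G (s X a) (X b) z` at `0`. Second part: let `P y : L →L (L →L ℝ)`, `P y b b' = G y (X b) (X b')`, and
`u y : L →L ℝ`, `u y b = G y (X b) z`, both of class `C²` at `0` (continuous linear functions of `G y`). `P 0` is
injective by positivity, so a `ContinuousLinearEquiv` (finite dimension); `w y := (P y).inverse (u y)` in
`L` is differentiable at `0` (`contDiffAt_map_inverse`), `w 0 = 0` because `u 0 = 0`, and for `y` near `0` `P y` is
invertible (`ContinuousLinearEquiv.nhds`), so with the symmetry (i) `G y (X b) z = G y (X b) (X (w y))` for `b` in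
`L`. So `G y (X b) (z - X (w y)) = 0`, and by the hypothesis `G (y + s X a) (X a) (z - X (w y)) = 0` for all `s`:
differentiate with respect to `s` at `0`: (ii) `fderiv G y (X a) (X a) z = fderiv G y (X a) (X a) (X (w y))` for `y`
near `0`. Let `c = fderiv w 0 z`, an element of `L`. The derivatives of (i) and (ii) at `0` in the direction
`z` are the two equations (`w 0 = 0`). -/
def WprStmt : Prop :=
  ∀ (n : ℕ) (G : Ed n → Bil (Ed n)) (X : ℝ × ℝ →L[ℝ] Ed n) (L : Submodule ℝ (ℝ × ℝ)),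
    ContDiffAt ℝ 2 G 0 → (∀ᶠ y in 𝓝 (0 : Ed n), ∀ v w : Ed n, G y v w = G y w v) →
    (∀ v : Ed n, v ≠ 0 → 0 < G 0 v v) → Function.Injective X →
    (∀ᶠ y in 𝓝 (0 : Ed n), ∀ t ∈ L, ∀ z : Ed n, (∀ b ∈ L, G y (X b) z = 0) →
      ∀ b ∈ L, G (y + X t) (X b) z = 0) →
    ∀ z : Ed n, (∀ b ∈ L, G 0 (X b) z = 0) →
      (∀ a ∈ L, ∀ b ∈ L, fderiv ℝ G 0 (X a) (X b) z = 0) ∧
      ∃ c ∈ L, (∀ b ∈ L, fderiv ℝ G 0 z (X b) z = G 0 (X b) (X c)) ∧
        ∀ a ∈ L, fderiv ℝ (fderiv ℝ G) 0 z (X a) (X a) z = fderiv ℝ G 0 (X a) (X a) (X c)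

/-- LOC (medium; uses SOC, SYM, SKW, ORT, WPR). THE LOCAL THEOREM. `G` a metric near `0` in `ℝⁿ`,
`T = X(L)`, `H` its orthogonal complement at `0` (ORT), `n + dim L` odd, so `dim H` is odd. Hypotheses: (h1) the
orthogonal complement of `T` is invariant under the translations by `T`; (h2) `|X b|²_y / |b|²`, `b` in `L`, has
a minimum at `y = 0`, `b = a`; (h3) `G (X t) z z ≥ G 0 z z` for `z` in `H`, `t` in `L`.
PROOF. `e := X a`. All derivatives at `0`; `v` in `T`, `z`, `z'` in `H`.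
(h2) and SOC (`V` arbitrary, `Z = e`, `W = X b`, `b` in `L`, `τ = m (a₁b₁ + a₂b₂)`, `m = G 0 e e / |a|²`: from (h2)
`G(εV)(e + εW, e + εW) ≥ m |a + εb|² ≥ m |a|² + 2 ε τ`): (1) `D_V G(e,e) + 2 G(e,W) = 2 τ`, with `b = 0`:
`D_V G(e,e) = 0` for all `V`; (2) `0 ≤ D²_{VV} G(e,e) + 4 D_V G(e,W) + 2 G(W,W)` for all `V` and all `W` in `T`.
(h3) and SOC (`Z = z`, `W = 0`, `V = X t`, `τ = 0`): `D_v G(z,z) = 0`, hence `D_v G(z,z') = 0` (polarize), and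
`D²_{vv} G(z,z) ≥ 0`.
WPR for `z` in `H`: `D_v G(v',z) = 0` for `v, v'` in `T`, and `c` in `L`, `B := X c`, with `D_z G(v,z) = G(v,B)`,
`D²_{ze} G(e,z) = D_e G(e,B)`.
`Ω(z,z') = D_z G(e,z') - D_z' G(e,z)` is bilinear and skew on `ℝⁿ`: SKW gives `z ≠ 0` in `H` with `Ω(z,z') = 0` for
all `z'` in `H`. `e` and `z` are independent (`T ∩ H = 0`).
`α = Γ(e,z)`: `G(α,z') = (D_e G(z,z') + Ω(z,z')) / 2 = 0`, so `α` is in `T` (decompose `α = α_T + α_H`: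
`G(α_H,α_H) = G(α,α_H) = 0`); `G(α,v) = (D_e G(z,v) + D_z G(e,v) - D_v G(e,z)) / 2 = D_z G(e,v) / 2`.
`β = Γ(e,e)`: `G(β,z') = D_e G(e,z') - D_z' G(e,e) / 2 = 0`, so `β` is in `T`; `G(β,v) = D_e G(e,v) - D_v G(e,e) / 2 =`
`D_e G(e,v)`. `γ = Γ(z,z)`: `G(γ,v) = D_z G(z,v) - D_v G(z,z) / 2 = G(v,B)`. So
`G(β,γ) = G(γ,β) = G(β,B) = D_e G(e,B) = D²_{ze} G(e,z)`.
(2) with `V = z`, `W = -2 α`: `D²_{zz} G(e,e) ≥ 8 D_z G(e,α) - 8 G(α,α) = 16 G(α,α) - 8 G(α,α) = 8 G(α,α)`. Hence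
`curv = -(D²_{ee} G(z,z) + D²_{zz} G(e,e) - 2 D²_{ez} G(e,z)) / 2 + G(α,α) - G(β,γ) ≤ -4 G(α,α) + G(α,α) ≤ 0`. -/
def LocStmt : Prop :=
  ∀ (n : ℕ) (G : Ed n → Bil (Ed n)) (X : ℝ × ℝ →L[ℝ] Ed n) (L : Submodule ℝ (ℝ × ℝ)) (a : ℝ × ℝ),
    ContDiffAt ℝ 2 G 0 → (∀ᶠ y in 𝓝 (0 : Ed n), ∀ v w : Ed n, G y v w = G y w v) →
    (∀ v : Ed n, v ≠ 0 → 0 < G 0 v v) → Function.Injective X → Odd (n + Module.finrank ℝ L) →
    a ∈ L → a ≠ 0 →
    (∀ᶠ y in 𝓝 (0 : Ed n), ∀ t ∈ L, ∀ z : Ed n, (∀ b ∈ L, G y (X b) z = 0) →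
      ∀ b ∈ L, G (y + X t) (X b) z = 0) →
    (∀ᶠ y in 𝓝 (0 : Ed n), ∀ b ∈ L, nsq b * G 0 (X a) (X a) ≤ nsq a * G y (X b) (X b)) →
    (∀ t ∈ L, ∀ z : Ed n, (∀ b ∈ L, G 0 (X b) z = 0) → G 0 z z ≤ G (X t) z z) →
    ∃ z : Ed n, LinearIndependent ℝ ![X a, z] ∧ ∀ α β γ : Ed n, IsChr G 0 (X a) z α →
      IsChr G 0 (X a) (X a) β → IsChr G 0 z z γ → curv G 0 (X a) z α β γ ≤ 0

/-! ## Manifolds -/

section Mfd

variable {n : ℕ} {E : Type*} [TopologicalSpace E] [ChartedSpace (Ed n) E] [IsManifold (𝓡 n) ∞ E]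

/-- the tangent vector `u` at `p` is orthogonal to the fundamental vectors of all `b` in `L` -/
def Hor (g : Met (n := n) E) (Φ : ℝ × ℝ → E → E) (L : Submodule ℝ (ℝ × ℝ)) (p : E)
    (u : TangentSpace (𝓡 n) p) : Prop :=
  ∀ b ∈ L, g.inner p (vf (n := n) Φ b p) u = 0

/-- the differential of `f` at `p` does not decrease the length of the vector `u` -/
def Exp (g : Met (n := n) E) (f : E → E) (p : E) (u : TangentSpace (𝓡 n) p) : Prop :=
  g.inner p u u ≤ g.inner (f p) (mfderiv (𝓡 n) (𝓡 n) f p u) (mfderiv (𝓡 n) (𝓡 n) f p u)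

end Mfd

/-- THH (medium; uses CHX, PUA, PUS, VFX, PSI, DTX, LOC). POINTWISE FORM of the theorem.
PROOF. Suppose `SecPos g`. `ψ`, `X` as in PSI at `p`, `G = pull g ψ`, smooth at `0` (PUS), symmetric and
positive at `0` (PUA). DTX: `G y (X b) (X b) = hh b b (ψ y)` near `0` and (shift, with `Φ 0 ∘ ψ = ψ`)
`G (y + X t) = pull g (Φ t ∘ ψ) y` for `y` near `0` and all `t`. (h2) of LOC is the second hypothesis.
(h1): if `G y (X b) z = 0` for all `b` in `L`, then (`mfderiv ψ y (X b) = vf b (ψ y)`, PSI) `Hor` at `ψ y` for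
`u = mfderiv ψ y z`, so `Hor` at `Φ t (ψ y)` for `mfderiv (Φ t) (ψ y) u`, and `G (y + X t) (X b) z =`
`pull g (Φ t ∘ ψ) y (X b) z = g(mfderiv (Φ t) (vf b (ψ y)), mfderiv (Φ t) u) = g(vf b (Φ t (ψ y)), mfderiv (Φ t) u) = 0`
(chain rule, VFX (4)). (h3): `G (X t) z z = pull g (Φ t ∘ ψ) 0 z z`, the third hypothesis for `mfderiv ψ 0 z`. LOC
gives `z`; the Christoffel vectors exist (CHX), and `PosAt (pull g ψ) 0` is contradicted. -/
def ThhStmt : Prop :=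
  ∀ (n : ℕ) (E : Type) [TopologicalSpace E] [T2Space E] [ChartedSpace (Ed n) E]
    [IsManifold (𝓡 n) ∞ E] (Φ : ℝ × ℝ → E → E), TAct (n := n) Φ → ∀ (g : Met (n := n) E)
    (L : Submodule ℝ (ℝ × ℝ)) (a : ℝ × ℝ) (p : E), Odd (n + Module.finrank ℝ L) → a ∈ L → a ≠ 0 →
    (∀ t ∈ L, ∀ (x : E) (u : TangentSpace (𝓡 n) x), Hor g Φ L x u →
      Hor g Φ L (Φ t x) (mfderiv (𝓡 n) (𝓡 n) (Φ t) x u)) →
    (∀ (x : E), ∀ b ∈ L, nsq b * hh g Φ a a p ≤ nsq a * hh g Φ b b x) →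
    (∀ t ∈ L, ∀ u : TangentSpace (𝓡 n) p, Hor g Φ L p u → Exp g (Φ t) p u) → ¬ SecPos g

/-- MNH (easy-medium; uses VFX, HCT). The minimum of `|V_b(x)|`, `|b| = 1`, on the compact manifold.
PROOF. `hh b b x = b₁² h₁₁ + 2 b₁ b₂ h₁₂ + b₂² h₂₂` (VFX (5)) is continuous in `(b, x)` (HCT); `E × {b : nsq b = 1}` is
compact and not empty; let `(p, a)` be a minimum. For `b ≠ 0` scale; `b = 0` is trivial. -/
def MnhStmt : Prop :=
  ∀ (n : ℕ) (E : Type) [TopologicalSpace E] [T2Space E] [CompactSpace E] [Nonempty E]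
    [ChartedSpace (Ed n) E] [IsManifold (𝓡 n) ∞ E] (Φ : ℝ × ℝ → E → E), TAct (n := n) Φ →
    ∀ g : Met (n := n) E, ∃ (p : E) (a : ℝ × ℝ), a ≠ 0 ∧
      ∀ (x : E) (b : ℝ × ℝ), nsq b * hh g Φ a a p ≤ nsq a * hh g Φ b b x

/-- (A) the torus preserves the orthogonal complement of the orbits -/
def CondA {n : ℕ} {E : Type*} [TopologicalSpace E] [ChartedSpace (Ed n) E] [IsManifold (𝓡 n) ∞ E]
    (g : Met (n := n) E) (Φ : ℝ × ℝ → E → E) : Prop :=
  ∀ (t : ℝ × ℝ) (x : E) (u : TangentSpace (𝓡 n) x), Hor g Φ ⊤ x u →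
    Hor g Φ ⊤ (Φ t x) (mfderiv (𝓡 n) (𝓡 n) (Φ t) x u)

/-- (B) for every `a ≠ 0` every orbit contains a point at which `|V_a|` is minimal on the orbit and the
lengths of the vectors orthogonal to the orbit are not decreased by the torus -/
def CondB {n : ℕ} {E : Type*} [TopologicalSpace E] [ChartedSpace (Ed n) E] [IsManifold (𝓡 n) ∞ E]
    (g : Met (n := n) E) (Φ : ℝ × ℝ → E → E) : Prop :=
  ∀ (x : E) (a : ℝ × ℝ), a ≠ 0 → ∃ s : ℝ × ℝ, ∀ t : ℝ × ℝ,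
    hh g Φ a a (Φ s x) ≤ hh g Φ a a (Φ t x) ∧
      ∀ u : TangentSpace (𝓡 n) (Φ s x), Hor g Φ ⊤ (Φ s x) u → Exp g (Φ t) (Φ s x) u

/-- (C) the dimension is odd or the torus acts conformally on its orbits -/
def CondC {n : ℕ} {E : Type*} [TopologicalSpace E] [ChartedSpace (Ed n) E] [IsManifold (𝓡 n) ∞ E]
    (g : Met (n := n) E) (Φ : ℝ × ℝ → E → E) : Prop :=
  Odd n ∨ ∀ (t : ℝ × ℝ) (x : E), ∃ d : ℝ, ∀ a b, hh g Φ a b (Φ t x) = d * hh g Φ a b x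

/-- DEC (easy-medium; uses VFX, ORT). Every tangent vector is the sum of a vector orthogonal to the
orbit and a fundamental vector: ORT (Cramer) for `h = hh · · x`, `φ b = g(V_b(x), u)` (linear in `b`). -/
def DecStmt : Prop :=
  ∀ (n : ℕ) (E : Type) [TopologicalSpace E] [T2Space E] [ChartedSpace (Ed n) E]
    [IsManifold (𝓡 n) ∞ E] (Φ : ℝ × ℝ → E → E), TAct (n := n) Φ → ∀ (g : Met (n := n) E) (x : E)
    (u : TangentSpace (𝓡 n) x), ∃ (c : ℝ × ℝ) (v : TangentSpace (𝓡 n) x),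
      Hor g Φ ⊤ x v ∧ u = v + (show TangentSpace (𝓡 n) x from vf (n := n) Φ c x)

/-- GLH (medium; uses VFX, THH, MNH, DEC). THE GLOBAL THEOREM for `TAct`.
PROOF. MNH: `(x₀, a)`. (B) for `x₀`, `a`: `s`; `p = Φ s x₀`. By (B) with `t = 0` `hh a a p ≤ hh a a x₀`, so
`nsq b * hh a a p ≤ nsq a * hh b b x` for all `x`, `b`. `n` odd: THH with `L = ⊤` (`finrank = 2`).
`n` even, so `hh a b (Φ t x) = d hh a b x`: THH with `L = span {a}` (`finrank = 1`). First hypothesis of THH: let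
`u` at `x` with `g(V_a, u) = 0`, `u = v + V_c(x)` (DEC); `hh a c x = 0`. `dΦ_t u = dΦ_t v + V_c(Φ_t x)` (VFX (4)),
`g(V_a(Φ_t x), dΦ_t v) = 0` by (A), `hh a c (Φ_t x) = d hh a c x = 0`. Third: for such `u` at `p`,
`|u|² = |v|² + hh c c p`, `|dΦ_t u|² = |dΦ_t v|² + hh c c (Φ_t p)` (by (A)), `|dΦ_t v|² ≥ |v|²` by (B), and
`hh c c (Φ_t p) = d hh c c p` with `d hh a a p = hh a a (Φ_t p) = hh a a (Φ (t + s) x₀) ≥ hh a a p > 0` by (B), so
`d ≥ 1`. -/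
def GlhStmt : Prop :=
  ∀ (n : ℕ) (E : Type) [TopologicalSpace E] [T2Space E] [CompactSpace E] [Nonempty E]
    [ChartedSpace (Ed n) E] [IsManifold (𝓡 n) ∞ E] (Φ : ℝ × ℝ → E → E), TAct (n := n) Φ →
    ∀ g : Met (n := n) E, CondA g Φ → CondB g Φ → CondC g Φ → ¬ SecPos g

/-- CFH (medium; uses VFX, HCT, GLH). THE CONFORMAL CASE. PROOF. (A): with `c` the factor of `Φ t` at `x`:
`g(V_b(Φ_t x), dΦ_t u) = g(dΦ_t V_b(x), dΦ_t u) = c g(V_b(x), u) = 0` (VFX (4)). (C): `hh a b (Φ_t x) = c hh a b x`.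
(B): `t ↦ hh a a (Φ_t x)` is continuous (HCT, the smoothness of `Φ`) with the periods `(1,0)`, `(0,1)`, so it has a
minimum `s` on `[0,1]²`, which is a minimum on `ℝ²` (`Int.fract`). At `p = Φ_s x` the factor `c` of `Φ_t` satisfies
`c hh a a p = hh a a (Φ (t + s) x) ≥ hh a a p > 0`, so `c ≥ 1`, and `|dΦ_t u|² = c |u|² ≥ |u|²`. -/
def CfhStmt : Prop :=
  ∀ (n : ℕ) (E : Type) [TopologicalSpace E] [T2Space E] [CompactSpace E] [Nonempty E]
    [ChartedSpace (Ed n) E] [IsManifold (𝓡 n) ∞ E] (Φ : ℝ × ℝ → E → E), TAct (n := n) Φ →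
    ∀ g : Met (n := n) E, (∀ t, Conf g (Φ t)) → ¬ SecPos g

/-- `g = ψ g₀` on the orthogonal complement of the orbits (the same for `g` and `g₀`), `g = ρ g₀` on
the orbits -/
structure Warp {n : ℕ} {E : Type*} [TopologicalSpace E] [ChartedSpace (Ed n) E]
    [IsManifold (𝓡 n) ∞ E] (Φ : ℝ × ℝ → E → E) (g₀ g : Met (n := n) E) (ψ ρ : E → ℝ) : Prop where
  psi : ∀ x, 0 < ψ x
  rho : ∀ x, 0 < ρ x
  ver : ∀ x a b, hh g Φ a b x = ρ x * hh g₀ Φ a b x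
  ort : ∀ (x : E) (u : TangentSpace (𝓡 n) x), Hor g₀ Φ ⊤ x u → Hor g Φ ⊤ x u
  hor : ∀ (x : E) (u v : TangentSpace (𝓡 n) x), Hor g₀ Φ ⊤ x u → Hor g₀ Φ ⊤ x v →
    g.inner x u v = ψ x * g₀.inner x u v

/-- PSR (medium; uses VFX, DEC, GLH). METRICS WITH TWO FACTORS. PROOF. If `Hor g u` then `Hor g₀ u`: DEC for `g₀`:
`u = v + V_c`, `Hor g₀ v`, so `Hor g v`, so `g(V_c, V_c) = 0`, `c = 0` (VFX (6)). `Φ_t` preserves `Hor g₀`
(invariance, VFX (4)); so (A). `hh g₀ a b (Φ_t x) = hh g₀ a b x` (VFX (4), invariance), so (C) with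
`d = ρ(Φ_t x) / ρ(x)`, and (B) at the common minimum `s` of `ψ`, `ρ`:
`|dΦ_t u|² = ψ(Φ_t p) |dΦ_t u|²_{g₀} = ψ(Φ_t p) |u|²_{g₀} ≥ ψ(p) |u|²_{g₀}`, `Φ_t p = Φ (t + s) x`. -/
def PsrStmt : Prop :=
  ∀ (n : ℕ) (E : Type) [TopologicalSpace E] [T2Space E] [CompactSpace E] [Nonempty E]
    [ChartedSpace (Ed n) E] [IsManifold (𝓡 n) ∞ E] (Φ : ℝ × ℝ → E → E), TAct (n := n) Φ →
    ∀ (g₀ g : Met (n := n) E) (ψ ρ : E → ℝ), Warp Φ g₀ g ψ ρ →
      (∀ (t : ℝ × ℝ) (x : E) (u v : TangentSpace (𝓡 n) x),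
        g₀.inner (Φ t x) (mfderiv (𝓡 n) (𝓡 n) (Φ t) x u) (mfderiv (𝓡 n) (𝓡 n) (Φ t) x v) =
          g₀.inner x u v) →
      (∀ x, ∃ s, ∀ t, ψ (Φ s x) ≤ ψ (Φ t x) ∧ ρ (Φ s x) ≤ ρ (Φ t x)) → ¬ SecPos g

/-! ## The torus `Circle × Circle` -/

/-- the action of the parameter `t` in `ℝ²`, that is of the element `(exp (2 π i t₁), exp (2 π i t₂))` -/
noncomputable def tor (E : Type*) [MulAction (Circle × Circle) E] (t : ℝ × ℝ) (p : E) : E :=
  (Circle.exp (2 * Real.pi * t.1), Circle.exp (2 * Real.pi * t.2)) • p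

/-- ORX (easy-medium; uses THH, GLH, CFH, PSR, EXP). THE THEOREM for smooth actions of the torus
`Circle × Circle` with finite isotropy groups (`tor E` is a `TAct` by EXP; `Circle.exp` is onto). -/
def OrxStmt : Prop :=
  ∀ (n : ℕ) (E : Type) [TopologicalSpace E] [T2Space E] [ChartedSpace (Ed n) E]
    [IsManifold (𝓡 n) ∞ E] [MulAction (Circle × Circle) E],
    ContMDiff (((𝓡 1).prod (𝓡 1)).prod (𝓡 n)) (𝓡 n) ∞
      (fun q : (Circle × Circle) × E => q.1 • q.2) →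
    (∀ p : E, {θ : Circle × Circle | θ • p = p}.Finite) → ∀ g : Met (n := n) E,
      (∀ (L : Submodule ℝ (ℝ × ℝ)) (a : ℝ × ℝ) (p : E), Odd (n + Module.finrank ℝ L) → a ∈ L →
        a ≠ 0 →
        (∀ t ∈ L, ∀ (x : E) (u : TangentSpace (𝓡 n) x), Hor g (tor E) L x u →
          Hor g (tor E) L (tor E t x) (mfderiv (𝓡 n) (𝓡 n) (tor E t) x u)) →
        (∀ (x : E), ∀ b ∈ L, nsq b * hh g (tor E) a a p ≤ nsq a * hh g (tor E) b b x) →
        (∀ t ∈ L, ∀ u : TangentSpace (𝓡 n) p, Hor g (tor E) L p u → Exp g (tor E t) p u) →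
          ¬ SecPos g) ∧
      (CompactSpace E → Nonempty E →
        (CondA g (tor E) → CondB g (tor E) → CondC g (tor E) → ¬ SecPos g) ∧
        ((∀ θ : Circle × Circle, Conf g (fun p => θ • p)) → ¬ SecPos g) ∧
        ∀ (g₀ : Met (n := n) E) (ψ ρ : E → ℝ), Warp (tor E) g₀ g ψ ρ →
          (∀ (θ : Circle × Circle) (x : E) (u v : TangentSpace (𝓡 n) x),
            g₀.inner (θ • x) (mfderiv (𝓡 n) (𝓡 n) (fun p : E => θ • p) x u)
              (mfderiv (𝓡 n) (𝓡 n) (fun p : E => θ • p) x v) = g₀.inner x u v) →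
          (∀ x, ∃ η : Circle × Circle, ∀ θ : Circle × Circle,
            ψ (η • x) ≤ ψ (θ • x) ∧ ρ (η • x) ≤ ρ (θ • x)) → ¬ SecPos g)

end Pool.Agent.CBG
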