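import Pool.Agent.CBG.Defs

/-!
# Squad CBG (MP_148648_gt): the definitions used in the final statements

`E` is a manifold modelled on the normed space `V` (in the theorems `V = Ed n`, the Euclidean space),
`Metric V E` the type of smooth Riemannian metrics of `E` (Mathlib's `ContMDiffRiemannianMetric` of the
tangent bundle), `ip g p v w` the inner product of tangent vectors, `tmap f p v` the differential of
`f : E → E`, `cmap ψ y v` the differential of `ψ : V → E`. The curvature is computed in local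
parametrizations: if `ψ : V → E` is smooth near `x` with injective differential at `x` (`Chart ψ x`), then
`coef g ψ y v w` is the coefficient matrix of `g` in these coordinates, `Chris G x v w a` says that `a` is the
Christoffel vector `Γ(v,w)` at `x`, and `Curv G x v w a b c` is `⟨R(v,w)w, v⟩`, if `a = Γ(v,w)`, `b = Γ(v,v)`,
`c = Γ(w,w)`.
-/

set_option autoImplicit false
set_option maxSynthPendingDepth 3

open scoped Manifold ContDiff Topology

namespace Pool.Agent.CBG.Thin

/-! ## Coordinates -/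

section Coord

variable {V : Type} [NormedAddCommGroup V] [NormedSpace ℝ V]

/-- the derivative of `f` in the direction `u` at `x` -/
noncomputable def dir (f : V → ℝ) (u x : V) : ℝ := fderiv ℝ f x u

/-- the Christoffel vector of the metric `G` at `x`: `G(a, z) = (1/2) (∂_v G(w,z) + ∂_w G(v,z) - ∂_z G(v,w))` for
all `z` -/
def Chris (G : V → V → V → ℝ) (x v w a : V) : Prop :=
  ∀ z : V, G x a z =
    (dir (fun y => G y w z) v x + dir (fun y => G y v z) w x - dir (fun y => G y v w) z x) / 2

/-- `⟨R(v,w)w, v⟩ = -(1/2) (∂_v ∂_v G(w,w) + ∂_w ∂_w G(v,v) - 2 ∂_v ∂_w G(v,w)) + G(a,a) - G(b,c)` at `x`, for the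
Christoffel vectors `a = Γ(v,w)`, `b = Γ(v,v)`, `c = Γ(w,w)` -/
noncomputable def Curv (G : V → V → V → ℝ) (x v w a b c : V) : ℝ :=
  -(dir (dir (fun y => G y w w) v) v x + dir (dir (fun y => G y v v) w) w x
      - 2 * dir (dir (fun y => G y v w) w) v x) / 2 + G x a a - G x b c

/-- `(∇_u H)(v,w) = ∂_u H(v,w) - H(a,w) - H(v,b)` at `x`, for `a = Γ(u,v)`, `b = Γ(u,w)` -/
noncomputable def Cov (H : V → V → V → ℝ) (x u v w a b : V) : ℝ :=
  dir (fun y => H y v w) u x - H x a w - H x v b

end Coord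

section Mfd

/-- smooth Riemannian metrics -/
def Metric (V : Type) [NormedAddCommGroup V] [NormedSpace ℝ V] (E : Type) [TopologicalSpace E]
    [ChartedSpace V E] [IsManifold 𝓘(ℝ, V) ∞ E] : Type :=
  Bundle.ContMDiffRiemannianMetric 𝓘(ℝ, V) ∞ V (fun p : E => TangentSpace 𝓘(ℝ, V) p)

variable {V : Type} [NormedAddCommGroup V] [NormedSpace ℝ V]
variable {E : Type} [TopologicalSpace E] [ChartedSpace V E]

/-- the differential of `f : E → E` at `p` -/
noncomputable def tmap (f : E → E) (p : E) (v : V) : V := mfderiv 𝓘(ℝ, V) 𝓘(ℝ, V) f p v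

/-- the differential of `ψ : V → E` at `x` -/
noncomputable def cmap (ψ : V → E) (x v : V) : V := mfderiv 𝓘(ℝ, V) 𝓘(ℝ, V) ψ x v

/-- `ψ` is a local parametrization of `E` at `x`: smooth near `x`, injective differential at `x` -/
def Chart (ψ : V → E) (x : V) : Prop :=
  (∀ᶠ y in 𝓝 x, ContMDiffAt 𝓘(ℝ, V) 𝓘(ℝ, V) ∞ ψ y) ∧ Function.Injective (cmap ψ x)

variable [IsManifold 𝓘(ℝ, V) ∞ E]

/-- the inner product of the tangent vectors `v`, `w` at `p` -/
noncomputable def ip (g : Metric V E) (p : E) (v w : V) : ℝ := g.inner p v w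

/-- the coefficient matrix of the metric in the coordinates of `ψ` -/
noncomputable def coef (g : Metric V E) (ψ : V → E) (y v w : V) : ℝ :=
  ip g (ψ y) (cmap ψ y v) (cmap ψ y w)

/-- the metric has positive sectional curvature -/
def SecPositive (g : Metric V E) : Prop :=
  ∀ (ψ : V → E) (x : V), Chart ψ x → ∀ v w a b c : V, LinearIndependent ℝ ![v, w] →
    Chris (coef g ψ) x v w a → Chris (coef g ψ) x v v b → Chris (coef g ψ) x w w c →
      0 < Curv (coef g ψ) x v w a b c

/-- all sectional curvatures of the metric are at least `1` -/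
def SecAtLeastOne (g : Metric V E) : Prop :=
  ∀ (ψ : V → E) (x : V), Chart ψ x → ∀ v w a b c : V,
    Chris (coef g ψ) x v w a → Chris (coef g ψ) x v v b → Chris (coef g ψ) x w w c →
      coef g ψ x v v * coef g ψ x w w - coef g ψ x v w ^ 2 ≤ Curv (coef g ψ) x v w a b c

/-- the map `f` is conformal: `f^* g = c g` with a positive function `c` -/
def Conformal (g : Metric V E) (f : E → E) : Prop :=
  ∀ p : E, ∃ c : ℝ, 0 < c ∧ ∀ v w : V, ip g (f p) (tmap f p v) (tmap f p w) = c * ip g p v w

/-- `λ^-2 g ≤ f^* g ≤ λ^2 g` -/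
def BiLipschitz (lam : ℝ) (g : Metric V E) (f : E → E) : Prop :=
  ∀ (p : E) (v : V), ip g p v v ≤ lam ^ 2 * ip g (f p) (tmap f p v) (tmap f p v) ∧
    ip g (f p) (tmap f p v) (tmap f p v) ≤ lam ^ 2 * ip g p v v

/-- `|(∇_u (f^* g))(v,w)| ≤ ε |u| |v| |w|`, `∇` the Levi-Civita connection of `g` -/
def C1Small (ε : ℝ) (g : Metric V E) (f : E → E) : Prop :=
  ∀ (ψ : V → E) (x : V), Chart ψ x → ∀ u v w a b : V,
    Chris (coef g ψ) x u v a → Chris (coef g ψ) x u w b →
      |Cov (coef g (f ∘ ψ)) x u v w a b| ≤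
        ε * (√(coef g ψ x u u) * √(coef g ψ x v v) * √(coef g ψ x w w))

end Mfd

/-- the torus acts smoothly, and all isotropy groups are finite (for instance, the action is free). `S`
is the circle, modelled on `W` -/
def SmoothAlmostFree (V : Type) [NormedAddCommGroup V] [NormedSpace ℝ V] (W : Type)
    [NormedAddCommGroup W] [NormedSpace ℝ W] (S : Type) [TopologicalSpace S] [ChartedSpace W S]
    [Monoid S] (E : Type) [TopologicalSpace E] [ChartedSpace V E] [MulAction (S × S) E] : Prop :=
  ContMDiff ((𝓘(ℝ, W).prod 𝓘(ℝ, W)).prod 𝓘(ℝ, V)) 𝓘(ℝ, V) ∞ (fun q : (S × S) × E => q.1 • q.2) ∧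
  ∀ p : E, {θ : S × S | θ • p = p}.Finite

end Pool.Agent.CBG.Thin
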